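import Mathlib

set_option autoImplicit false

/-!
# The number of rows
-/

namespace Pool.Agent.CG61

/-- A linear bound for the logarithm. -/
theorem log_le_add_div (m x : ℕ) (hx : 0 < x) :
    Nat.log 2 m ≤ Nat.log 2 x + m / x + 1 := by
  have h1 : m < (m / x + 1) * x := by
    have h2 := Nat.div_add_mod m x
    have h3 := Nat.mod_lt m hx
    calc m = x * (m / x) + m % x := h2.symm
      _ < x * (m / x) + x := Nat.add_lt_add_left h3 _
      _ = (m / x + 1) * x := by ring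
  have h2 : m / x + 1 ≤ 2 ^ (m / x) := Nat.lt_two_pow_self
  have h3 : x < 2 ^ (Nat.log 2 x + 1) := Nat.lt_pow_succ_log_self (by norm_num) x
  have h4 : m < 2 ^ (Nat.log 2 x + m / x + 1) := by
    calc m < (m / x + 1) * x := h1
      _ ≤ 2 ^ (m / x) * 2 ^ (Nat.log 2 x + 1) := Nat.mul_le_mul h2 h3.le
      _ = 2 ^ (Nat.log 2 x + m / x + 1) := by
        rw [← pow_add]
        congr 1
        omega
  rcases Nat.eq_zero_or_pos m with rfl | hm
  · simp
  · exact (Nat.log_lt_of_lt_pow (by omega) h4).le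

theorem log_mul_sq_le (n m : ℕ) : Nat.log 2 (n * m ^ 2) ≤ Nat.log 2 n + 2 * Nat.log 2 m + 2 := by
  rcases Nat.eq_zero_or_pos (n * m ^ 2) with h0 | h0
  · rw [h0]
    simp
  have h1 : n < 2 ^ (Nat.log 2 n + 1) := Nat.lt_pow_succ_log_self (by norm_num) n
  have h2 : m < 2 ^ (Nat.log 2 m + 1) := Nat.lt_pow_succ_log_self (by norm_num) m
  have h3 : n * m ^ 2 < 2 ^ (Nat.log 2 n + 2 * Nat.log 2 m + 3) := by
    calc n * m ^ 2 < 2 ^ (Nat.log 2 n + 1) * (2 ^ (Nat.log 2 m + 1)) ^ 2 := by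
          refine Nat.mul_lt_mul_of_lt_of_le h1 (Nat.pow_le_pow_left h2.le 2) ?_
          positivity
      _ = 2 ^ (Nat.log 2 n + 2 * Nat.log 2 m + 3) := by
        rw [← pow_mul, ← pow_add]
        congr 1
        ring
  have := Nat.log_lt_of_lt_pow (b := 2) (by omega) h3
  omega

/-- The number of rows that is needed. -/
theorem numb {m n q : ℕ} (hn : 1 ≤ n)
    (hq : q ≤ 700000 * (n ^ 2 * (Nat.log 2 n + 1) ^ 2))
    (hm : 2 ^ 29 * (n ^ 2 * (Nat.log 2 n + 1) ^ 2) < m) :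
    64 * ((Nat.log 2 n + 7) * (n * (80 * n * (Nat.log 2 (n * m ^ 2) + 1)))) +
      n * (102400 * (n + 1)) + 102400 * (n + 1) + 320 * q < m := by
  set l := Nat.log 2 n with hl
  set X := n ^ 2 * (l + 1) ^ 2 with hX
  set x := 286720 * (n ^ 2 * (l + 1)) with hx
  have hx0 : 0 < x := by positivity
  have h1 := log_mul_sq_le n m
  have h2 := log_le_add_div m x hx0
  -- the logarithm of `x`
  have h3 : Nat.log 2 x ≤ 22 * (l + 1) := by
    have h4 : n < 2 ^ (l + 1) := Nat.lt_pow_succ_log_self (by norm_num) n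
    have h5 : l + 1 < 2 ^ (l + 1) := Nat.lt_two_pow_self
    have h6 : x < 2 ^ (19 + 3 * (l + 1)) := by
      have h7 : n ^ 2 ≤ (2 ^ (l + 1)) ^ 2 := Nat.pow_le_pow_left h4.le 2
      calc x = 286720 * (n ^ 2 * (l + 1)) := rfl
        _ < 2 ^ 19 * ((2 ^ (l + 1)) ^ 2 * 2 ^ (l + 1)) := by
          refine Nat.mul_lt_mul_of_lt_of_le (by norm_num) (Nat.mul_le_mul h7 h5.le) ?_
          positivity
        _ = 2 ^ (19 + 3 * (l + 1)) := by
          rw [← pow_mul, ← pow_add, ← pow_add]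
          congr 1
          ring
    have := Nat.log_lt_of_lt_pow (b := 2) (by omega) h6
    omega
  have h4 : x * (m / x) ≤ m := Nat.mul_div_le m x
  set t := m / x with ht
  set L := Nat.log 2 (n * m ^ 2) with hL
  set Lm := Nat.log 2 m with hLm
  have h5 : L + 1 ≤ 49 * (l + 1) + 2 * t := by omega
  have hn2 : n ≤ n ^ 2 := by nlinarith
  have hX1 : n ^ 2 ≤ X := by
    rw [hX]
    exact Nat.le_mul_of_pos_right _ (by positivity)
  -- the first summand
  have h6 : 64 * ((l + 7) * (n * (80 * n * (L + 1)))) ≤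
      35840 * (n ^ 2 * (l + 1)) * (L + 1) := by
    calc 64 * ((l + 7) * (n * (80 * n * (L + 1)))) = 5120 * (n ^ 2 * (l + 7)) * (L + 1) := by ring
      _ ≤ 5120 * (n ^ 2 * (7 * (l + 1))) * (L + 1) := by
        refine Nat.mul_le_mul_right _ (Nat.mul_le_mul_left _ (Nat.mul_le_mul_left _ (by omega)))
      _ = 35840 * (n ^ 2 * (l + 1)) * (L + 1) := by ring
  have h7 : 35840 * (n ^ 2 * (l + 1)) * (L + 1) ≤
      35840 * (n ^ 2 * (l + 1)) * (49 * (l + 1) + 2 * t) := Nat.mul_le_mul_left _ h5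
  have h8 : 35840 * (n ^ 2 * (l + 1)) * (49 * (l + 1) + 2 * t) =
      1756160 * X + 71680 * (n ^ 2 * (l + 1)) * t := by
    rw [hX]
    ring
  have h9 : 4 * (71680 * (n ^ 2 * (l + 1)) * t) ≤ m := by
    calc 4 * (71680 * (n ^ 2 * (l + 1)) * t) = x * t := by rw [hx]; ring
      _ ≤ m := h4
  have h10 : n * (102400 * (n + 1)) + 102400 * (n + 1) ≤ 409600 * n ^ 2 := by nlinarith
  norm_num at hm
  omega

end Pool.Agent.CG61
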