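import Pool.Agent.CG61.Base
import Pool.Agent.CG61.Numb
import Pool.Agent.FZ86.Setup

set_option autoImplicit false
set_option linter.unusedSectionVars false

/-!
# All numbers of symbols, up to the core
-/

open Finset

namespace Pool.Agent.CG61

open Pool.Agent.Rl45 Pool.Agent.V3R Pool.Agent.GK71

variable {g m n k : ℕ}

theorem Lc_eq (M' : Finset (Fin g)) :
    (FZ86.Lc M' : Finset (Rw g n × Fin n)) = oc M' := rfl

theorem prv_eq : (FZ86.prv : Fin g → Fin n → Rw g n) = pr := rfl

theorem Lc_union (M' : Finset (Fin g)) :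
    FZ86.Lc M' ∪ GK71.prs FZ86.prv M' = (cel M' : Finset (Rw g n × Fin n)) := oc_union M'

theorem card_Lc_col (M' : Finset (Fin g)) (v : Fin n) :
    ((FZ86.Lc M' : Finset (Rw g n × Fin n)).filter fun e => e.2 = v).card + M'.card = g := by
  have h1 : ((FZ86.Lc M' : Finset (Rw g n × Fin n)).filter fun e => e.2 = v).card =
      M'ᶜ.card := card_oc_col M' v
  rw [h1, card_compl, Fintype.card_fin]
  have := card_le_univ M'
  rw [Fintype.card_fin] at this
  omega

/-- The exact number for all `k`, from the core. -/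
theorem all_k_of (q : ℕ) (hq : q ≤ 700000 * (n ^ 2 * (Nat.log 2 n + 1) ^ 2))
    (hcore : ∀ (g : ℕ) (B : Fin g → Fin n → Fin k), (∀ i, Function.Injective (B i)) →
      ∀ M' : Finset (Fin g), q < M'.card → ∀ v : Fin n,
      ∃ (N : ℕ) (C : Finset (Rw g n × Fin n)), Cov (ext B) N C ∧
        C ⊆ FZ86.Lc M' ∪ GK71.prs FZ86.prv M' ∧
        N + (Fintype.card (Fin n) - 1) =
          ((FZ86.Lc M' : Finset (Rw g n × Fin n)).filter fun e => e.2 = v).card + M'.card)
    (hn : 1 ≤ n) (hm : 2 ^ 29 * (n ^ 2 * (Nat.log 2 n + 1) ^ 2) < m)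
    (A : Fin m → Fin n → Fin k) (hA : ∀ i, Function.Injective (A i)) :
    ∃ T : Fin (m - (n - 1)) → Fin n → Fin m,
      (∀ s, Function.Injective (T s)) ∧
      (∀ s, Function.Injective (fun j => A (T s j) j)) ∧
      ∀ j, Function.Injective (fun s => T s j) := by
  refine assemble_cov A hA hn (Λ := 102400 * (n + 1)) le_rfl (n - 1) q (numb hn hq hm)
    fun g B hB M' hM' => ?_
  obtain ⟨N, C, h1, h2, h3⟩ := hcore g B hB M' hM' ⟨0, hn⟩
  rw [card_Lc_col, Fintype.card_fin] at h3
  exact ⟨N, C, by omega, h2.trans (Lc_union M').subset, h1⟩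

end Pool.Agent.CG61
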