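import Pool.Agent.CG61.Sums

set_option autoImplicit false
set_option linter.unusedSectionVars false

/-!
# The reassignment lemma

Rows, columns, symbols. The cells of every column are divided into classes (`K`), some classes are
wild. Every cell is replaced by a cell of its class such that every section gets distinct rows,
the wild cells of a section get distinct symbols, and these symbols are not forbidden.
-/

open Finset

namespace Pool.Agent.CG61

open Pool.Agent.APL86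

variable {R Y S P : Type*} [Fintype R] [DecidableEq R] [DecidableEq Y] [DecidableEq S] {n : ℕ}

/-- the hypotheses of the reassignment lemma -/
structure Data (K : R → Fin n → Y) (A : R → Fin n → S) (Wl : R → Fin n → Prop)
    (sig : Fin n → R → Option P) (F : Fin n → R → Finset S) : Prop where
  wcl : ∀ i r j, K r j = K i j → Wl i j → Wl r j
  inj : ∀ j r r' p, sig j r = some p → sig j r' = some p → r = r'
  h0 : ∀ i, ∑ j, (1 : ℚ) / ((kl K i j).card : ℚ) ≤ 1 / 32
  h1 : ∀ i j z, Wl i j → ∀ Z : Finset R, (∀ r ∈ Z, K r j = K i j ∧ A r j = z) →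
    80 * n * Z.card ≤ (kl K i j).card
  h2 : ∀ j r, (F j r).card ≤ n
  h3 : ∀ i j, Wl i j → ∀ Z : Finset R, (∀ r ∈ Z, K r j = K i j ∧ A i j ∈ F j r) →
    40 * Z.card ≤ (kl K i j).card

/-- the same row -/
def rho1 (_ : Fin n) (i : R) (_ : Fin n) (i' : R) : Prop := i = i'

/-- wild cells with the same symbol -/
def rho2 (A : R → Fin n → S) (Wl : R → Fin n → Prop) (j : Fin n) (i : R) (k : Fin n) (i' : R) :
    Prop :=
  Wl i j ∧ Wl i' k ∧ A i j = A i' k

/-- a wild cell with a forbidden symbol -/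
def tau (A : R → Fin n → S) (Wl : R → Fin n → Prop) (F : Fin n → R → Finset S) (j : Fin n)
    (i r : R) : Prop :=
  Wl i j ∧ A i j ∈ F j r

variable {K : R → Fin n → Y} {A : R → Fin n → S} {Wl : R → Fin n → Prop}
  {sig : Fin n → R → Option P} {F : Fin n → R → Finset S}

theorem lam_pos' (K : R → Fin n → Y) (i : R) (j : Fin n) : (0 : ℚ) < (kl K i j).card := by
  exact_mod_cast kl_pos K i j

theorem inv_nonneg' (K : R → Fin n → Y) (i : R) (j : Fin n) :
    (0 : ℚ) ≤ 1 / ((kl K i j).card : ℚ) := by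
  positivity

theorem beta1 (K : R → Fin n → Y) (j : Fin n) (i : R) (k : Fin n) (q : R) (_ : j ≠ k)
    (Z : Finset R) (hZ : ∀ i' ∈ Z, K i' k = K q k ∧ rho1 j i k i') :
    ∑ i' ∈ Z, 1 / ((kl K i' k).card : ℚ) ≤ 1 / ((kl K i k).card : ℚ) := by
  have h1 : Z ⊆ {i} := by
    intro x hx
    rw [mem_singleton]
    exact (hZ x hx).2.symm
  refine (sum_le_sum_of_subset_of_nonneg h1 fun x _ _ => inv_nonneg' K x k).trans ?_
  rw [sum_singleton]

theorem beta2 (h : Data K A Wl sig F) (hn : 0 < n) (j : Fin n) (i : R) (k : Fin n) (q : R)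
    (_ : j ≠ k) (Z : Finset R) (hZ : ∀ i' ∈ Z, K i' k = K q k ∧ rho2 A Wl j i k i') :
    ∑ i' ∈ Z, 1 / ((kl K i' k).card : ℚ) ≤ 1 / (80 * n) := by
  have hn' : (0 : ℚ) < n := by exact_mod_cast hn
  have h1 : ∀ i' ∈ Z, 1 / ((kl K i' k).card : ℚ) = 1 / ((kl K q k).card : ℚ) := by
    intro i' hi'
    rw [kl_congr (hZ i' hi').1]
  rw [sum_congr rfl h1, sum_const, nsmul_eq_mul, mul_one_div]
  rcases Z.eq_empty_or_nonempty with h2 | ⟨x, hx⟩
  · rw [h2, card_empty, Nat.cast_zero, zero_div]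
    positivity
  · have h3 : Wl q k := h.wcl x q k (hZ x hx).1.symm (hZ x hx).2.2.1
    have h4 := h.h1 q k (A i j) h3 Z fun r hr => ⟨(hZ r hr).1, (hZ r hr).2.2.2.symm⟩
    have h6 : (80 * n * Z.card : ℚ) ≤ (kl K q k).card := by
      exact_mod_cast h4
    rw [div_le_div_iff₀ (lam_pos' K q k) (by positivity)]
    linarith

theorem sum_beta2 (hn : 0 < n) (_ : R) : ∑ _k : Fin n, (1 : ℚ) / (80 * n) ≤ 1 / 80 := by
  have hn' : (0 : ℚ) < n := by exact_mod_cast hn
  rw [sum_const, card_univ, Fintype.card_fin, nsmul_eq_mul]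
  refine le_of_eq ?_
  field_simp

theorem tau_cell (h : Data K A Wl sig F) (j : Fin n) (i : R) (Z : Finset R)
    (hZ : ∀ r ∈ Z, K r j = K i j ∧ tau A Wl F j i r) :
    (Z.card : ℚ) ≤ 1 / 40 * (kl K i j).card := by
  rcases Z.eq_empty_or_nonempty with h2 | ⟨x, hx⟩
  · rw [h2, card_empty, Nat.cast_zero]
    positivity
  · have h3 := h.h3 i j (hZ x hx).2.1 Z fun r hr => ⟨(hZ r hr).1, (hZ r hr).2.2⟩
    have h4 : (40 * Z.card : ℚ) ≤ (kl K i j).card := by exact_mod_cast h3
    linarith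

theorem tau_slot (h : Data K A Wl sig F) (hn : 0 < n) (j : Fin n) (r : R) (Z : Finset R)
    (hZ : ∀ i ∈ Z, K i j = K r j ∧ tau A Wl F j i r) :
    (Z.card : ℚ) ≤ 1 / 80 * (kl K r j).card := by
  classical
  rcases Z.eq_empty_or_nonempty with h2 | ⟨x, hx⟩
  · rw [h2, card_empty, Nat.cast_zero]
    positivity
  · have hw : Wl r j := h.wcl x r j (hZ x hx).1.symm (hZ x hx).2.1
    have h1 : Z ⊆ (F j r).biUnion fun z => Z.filter fun i => A i j = z := by
      intro i hi
      exact mem_biUnion.2 ⟨A i j, (hZ i hi).2.2, mem_filter.2 ⟨hi, rfl⟩⟩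
    have h2 : 80 * n * Z.card ≤ n * (kl K r j).card := by
      calc 80 * n * Z.card
          ≤ 80 * n * ∑ z ∈ F j r, (Z.filter fun i => A i j = z).card :=
            Nat.mul_le_mul_left _ ((card_le_card h1).trans card_biUnion_le)
        _ = ∑ z ∈ F j r, 80 * n * (Z.filter fun i => A i j = z).card := by
            rw [mul_sum]
        _ ≤ ∑ _z ∈ F j r, (kl K r j).card := by
            refine sum_le_sum fun z _ => h.h1 r j z hw _ fun y hy => ?_
            rw [mem_filter] at hy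
            exact ⟨(hZ y hy.1).1, hy.2⟩
        _ = (F j r).card * (kl K r j).card := by rw [sum_const, smul_eq_mul]
        _ ≤ n * (kl K r j).card := Nat.mul_le_mul_right _ (h.h2 j r)
    have h3 : 80 * Z.card ≤ (kl K r j).card := by
      refine Nat.le_of_mul_le_mul_left ?_ hn
      calc n * (80 * Z.card) = 80 * n * Z.card := by ring
        _ ≤ _ := h2
    have h4 : (80 * Z.card : ℚ) ≤ (kl K r j).card := by exact_mod_cast h3
    linarith

/-- all events -/
noncomputable def evs (K : R → Fin n → Y) (A : R → Fin n → S) (Wl : R → Fin n → Prop)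
    (sig : Fin n → R → Option P) (F : Fin n → R → Finset S) : Finset (Evt R n) :=
  prs K sig rho1 ∪ (prs K sig (rho2 A Wl) ∪ sgs K (tau A Wl F))

theorem sum_union_le (w : Evt R n → ℚ) (hw : ∀ t, 0 ≤ w t) (X Z : Finset (Evt R n)) :
    ∑ t ∈ X ∪ Z, w t ≤ ∑ t ∈ X, w t + ∑ t ∈ Z, w t := by
  rw [← sum_union_inter]
  exact le_add_of_nonneg_right (sum_nonneg fun _ _ => hw _)

theorem evs_split (X : Finset (Evt R n)) (hX : X ⊆ evs K A Wl sig F) :
    ∑ t ∈ X, prb K t ≤ ∑ t ∈ X ∩ prs K sig rho1, prb K t +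
      (∑ t ∈ X ∩ prs K sig (rho2 A Wl), prb K t + ∑ t ∈ X ∩ sgs K (tau A Wl F), prb K t) := by
  have h1 : X = X ∩ prs K sig rho1 ∪ (X ∩ prs K sig (rho2 A Wl) ∪ X ∩ sgs K (tau A Wl F)) := by
    rw [← inter_union_distrib_left, ← inter_union_distrib_left]
    exact (inter_eq_left.2 hX).symm
  conv_lhs => rw [h1]
  exact (sum_union_le _ (prb_nonneg K) _ _).trans
    (add_le_add le_rfl (sum_union_le _ (prb_nonneg K) _ _))

theorem cell_sum (h : Data K A Wl sig F) (hn : 0 < n) (j : Fin n) (i : R)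
    (X : Finset (Evt R n)) (hX : X ⊆ evs K A Wl sig F) (hX' : ∀ t ∈ X, ∃ r, t j = some (i, r)) :
    ∑ t ∈ X, prb K t ≤ 1 / 32 + (1 / 80 + 1 / 40) := by
  refine (evs_split X hX).trans (add_le_add ?_ (add_le_add ?_ ?_))
  · exact pair_cell h.inj (fun _ _ _ _ h => h.symm) (inv_nonneg' K) h.h0 (beta1 K) j i _
      fun t ht => ⟨(mem_inter.1 ht).2, hX' t (mem_inter.1 ht).1⟩
  · exact pair_cell (β := fun _ _ => 1 / (80 * n)) h.inj
      (fun _ _ _ _ h => ⟨h.2.1, h.1, h.2.2.symm⟩) (fun _ _ => by positivity) (sum_beta2 hn)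
      (beta2 h hn) j i _ fun t ht => ⟨(mem_inter.1 ht).2, hX' t (mem_inter.1 ht).1⟩
  · exact single_cell j i (tau_cell h j i) _
      fun t ht => ⟨(mem_inter.1 ht).2, hX' t (mem_inter.1 ht).1⟩

theorem slot_sum (h : Data K A Wl sig F) (hn : 0 < n) (j : Fin n) (r : R)
    (X : Finset (Evt R n)) (hX : X ⊆ evs K A Wl sig F) (hX' : ∀ t ∈ X, ∃ i, t j = some (i, r)) :
    ∑ t ∈ X, prb K t ≤ 1 / 32 + (1 / 80 + 1 / 80) := by
  refine (evs_split X hX).trans (add_le_add ?_ (add_le_add ?_ ?_))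
  · exact pair_slot h.inj (fun _ _ _ _ h => h.symm) (inv_nonneg' K) h.h0 (beta1 K) j r _
      fun t ht => ⟨(mem_inter.1 ht).2, hX' t (mem_inter.1 ht).1⟩
  · exact pair_slot (β := fun _ _ => 1 / (80 * n)) h.inj
      (fun _ _ _ _ h => ⟨h.2.1, h.1, h.2.2.symm⟩) (fun _ _ => by positivity) (sum_beta2 hn)
      (beta2 h hn) j r _ fun t ht => ⟨(mem_inter.1 ht).2, hX' t (mem_inter.1 ht).1⟩
  · exact single_slot j r (tau_slot h hn j r) _
      fun t ht => ⟨(mem_inter.1 ht).2, hX' t (mem_inter.1 ht).1⟩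

/-- the columns of an event -/
def cols (e : Evt R n) : Finset (Fin n) := univ.filter fun j => (e j).isSome

theorem mem_cols {e : Evt R n} {j : Fin n} : j ∈ cols e ↔ ∃ i r, e j = some (i, r) := by
  unfold cols
  rw [mem_filter, Option.isSome_iff_exists]
  constructor
  · rintro ⟨-, ⟨i, r⟩, h⟩
    exact ⟨i, r, h⟩
  · rintro ⟨i, r, h⟩
    exact ⟨mem_univ _, (i, r), h⟩

theorem inv_le (h : Data K A Wl sig F) (i : R) (j : Fin n) :
    1 / ((kl K i j).card : ℚ) ≤ 1 / 32 :=
  (single_le_sum (f := fun j => 1 / ((kl K i j).card : ℚ)) (fun j _ => inv_nonneg' K i j)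
    (mem_univ j)).trans (h.h0 i)

theorem form_dbl (h : Data K A Wl sig F) {j k : Fin n} {i r i' q : R} (hjk : j ≠ k)
    (h1 : K r j = K i j) (h2 : K q k = K i' k) :
    Valid K (dbl j i r k i' q) ∧ prb K (dbl j i r k i' q) < 1 / 2 ∧
      (cols (dbl j i r k i' q)).card ≤ 2 := by
  refine ⟨?_, ?_, ?_⟩
  · intro l a b hl
    unfold dbl at hl
    split_ifs at hl with e1 e2
    · obtain ⟨e3, e4⟩ := Prod.mk.inj (Option.some.inj hl)
      rw [e1, ← e3, ← e4]
      exact h1
    · obtain ⟨e3, e4⟩ := Prod.mk.inj (Option.some.inj hl)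
      rw [e2, ← e3, ← e4]
      exact h2
  · rw [prb_dbl K hjk]
    have h3 := inv_le h i j
    have h4 := inv_le h i' k
    have h5 := inv_nonneg' K i j
    have h6 := inv_nonneg' K i' k
    nlinarith
  · refine (card_le_card (t := {j, k}) fun l hl => ?_).trans card_le_two
    obtain ⟨a, b, hl⟩ := mem_cols.1 hl
    unfold dbl at hl
    rw [mem_insert, mem_singleton]
    by_contra h4
    push Not at h4
    rw [if_neg h4.1, if_neg h4.2] at hl
    exact absurd hl (by simp)

theorem form_sgl (h : Data K A Wl sig F) {j : Fin n} {i r : R} (h1 : K r j = K i j) :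
    Valid K (sgl j i r) ∧ prb K (sgl j i r) < 1 / 2 ∧ (cols (sgl j i r)).card ≤ 2 := by
  refine ⟨?_, ?_, ?_⟩
  · intro l a b hl
    unfold sgl at hl
    split_ifs at hl with e1
    obtain ⟨e3, e4⟩ := Prod.mk.inj (Option.some.inj hl)
    rw [e1, ← e3, ← e4]
    exact h1
  · rw [prb_sgl]
    have h3 := inv_le h i j
    linarith
  · refine (card_le_card (t := {j}) fun l hl => ?_).trans (by rw [card_singleton]; omega)
    obtain ⟨a, b, hl⟩ := mem_cols.1 hl
    unfold sgl at hl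
    rw [mem_singleton]
    by_contra h4
    rw [if_neg h4] at hl
    exact absurd hl (by simp)

theorem form (h : Data K A Wl sig F) {e : Evt R n} (he : e ∈ evs K A Wl sig F) :
    Valid K e ∧ prb K e < 1 / 2 ∧ (cols e).card ≤ 2 := by
  unfold evs at he
  rw [mem_union, mem_union] at he
  rcases he with he | he | he
  · obtain ⟨j, i, r, k, i', q, h1, -, h3, h4, -, h6⟩ := mem_prs.1 he
    rw [h6]
    exact form_dbl h h1 h3 h4
  · obtain ⟨j, i, r, k, i', q, h1, -, h3, h4, -, h6⟩ := mem_prs.1 he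
    rw [h6]
    exact form_dbl h h1 h3 h4
  · obtain ⟨j, i, r, -, h2, h3⟩ := mem_sgs.1 he
    rw [h3]
    exact form_sgl h h2

theorem sum_biUnion_le' (w : Evt R n → ℚ) (hw : ∀ t, 0 ≤ w t) (X : Finset (Fin n))
    (g : Fin n → Finset (Evt R n)) (b : ℚ) (hb : ∀ j ∈ X, ∑ t ∈ g j, w t ≤ b) :
    ∑ t ∈ X.biUnion g, w t ≤ X.card * b := by
  induction X using Finset.induction_on with
  | empty => simp
  | insert x X hx ih =>
    rw [biUnion_insert, card_insert_of_notMem hx]
    have h2 := sum_union_le w hw (g x) (X.biUnion g)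
    have h3 := hb x (mem_insert_self _ _)
    have h4 := ih fun j hj => hb j (mem_insert_of_mem hj)
    push_cast
    linarith

open Classical in
/-- the neighbours -/
noncomputable def nbs (E : Finset (Evt R n)) (e : Evt R n) : Finset (Evt R n) :=
  E.filter fun t => Touch e t

theorem mem_nbs {E : Finset (Evt R n)} {e t : Evt R n} : t ∈ nbs E e ↔ t ∈ E ∧ Touch e t := by
  simp [nbs]

theorem nbs_sum (h : Data K A Wl sig F) (hn : 0 < n) {e : Evt R n}
    (he : e ∈ evs K A Wl sig F) : ∑ t ∈ nbs (evs K A Wl sig F) e, prb K t ≤ 1 / 4 := by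
  classical
  have h1 : nbs (evs K A Wl sig F) e ⊆ (cols e).biUnion fun j =>
      (evs K A Wl sig F).filter (fun t => ∃ i r r', e j = some (i, r) ∧ t j = some (i, r')) ∪
      (evs K A Wl sig F).filter (fun t => ∃ i r i', e j = some (i, r) ∧ t j = some (i', r)) := by
    intro t ht
    rw [mem_nbs] at ht
    obtain ⟨ht1, j, i, r, i', r', h2, h3, h4⟩ := ht
    rw [mem_biUnion]
    refine ⟨j, mem_cols.2 ⟨i, r, h2⟩, ?_⟩
    rw [mem_union, mem_filter, mem_filter]
    rcases h4 with h4 | h4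
    · exact Or.inl ⟨ht1, i, r, r', h2, by rw [h3, h4]⟩
    · exact Or.inr ⟨ht1, i, r, i', h2, by rw [h3, h4]⟩
  refine (sum_le_sum_of_subset_of_nonneg h1 fun _ _ _ => prb_nonneg K _).trans ?_
  refine (sum_biUnion_le' (prb K) (prb_nonneg K) _ _ (1 / 8) ?_).trans ?_
  · intro j hj
    obtain ⟨i, r, hir⟩ := mem_cols.1 hj
    refine (sum_union_le _ (prb_nonneg K) _ _).trans ?_
    have h2 := cell_sum h hn j i
      ((evs K A Wl sig F).filter fun t => ∃ i r r', e j = some (i, r) ∧ t j = some (i, r'))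
      (filter_subset _ _) (by
        intro t ht
        obtain ⟨-, i', r', r'', h3, h4⟩ := mem_filter.1 ht
        rw [hir] at h3
        obtain ⟨e3, -⟩ := Prod.mk.inj (Option.some.inj h3)
        exact ⟨r'', by rw [h4, e3]⟩)
    have h3 := slot_sum h hn j r
      ((evs K A Wl sig F).filter fun t => ∃ i r i', e j = some (i, r) ∧ t j = some (i', r))
      (filter_subset _ _) (by
        intro t ht
        obtain ⟨-, i', r', i'', h3, h4⟩ := mem_filter.1 ht
        rw [hir] at h3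
        obtain ⟨-, e4⟩ := Prod.mk.inj (Option.some.inj h3)
        exact ⟨i'', by rw [h4, e4]⟩)
    refine (add_le_add h2 h3).trans ?_
    norm_num
  · have h2 : ((cols e).card : ℚ) ≤ 2 := by
      exact_mod_cast (form h he).2.2
    linarith

theorem mem_BE_dbl {f : Fin n → Equiv.Perm R} {j k : Fin n} {i i' : R} :
    f ∈ BE (dbl j i (f j i) k i' (f k i')) := by
  rw [mem_BE]
  intro l a b hl
  unfold dbl at hl
  split_ifs at hl with e1 e2
  · obtain ⟨e3, e4⟩ := Prod.mk.inj (Option.some.inj hl)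
    rw [e1, ← e3, ← e4]
  · obtain ⟨e3, e4⟩ := Prod.mk.inj (Option.some.inj hl)
    rw [e2, ← e3, ← e4]

theorem mem_BE_sgl {f : Fin n → Equiv.Perm R} {j : Fin n} {i : R} :
    f ∈ BE (sgl j i (f j i)) := by
  rw [mem_BE]
  intro l a b hl
  unfold sgl at hl
  split_ifs at hl with e1
  obtain ⟨e3, e4⟩ := Prod.mk.inj (Option.some.inj hl)
  rw [e1, ← e3, ← e4]

/-- the reassignment lemma -/
theorem reassign (h : Data K A Wl sig F) (hn : 0 < n) :
    ∃ f : Fin n → Equiv.Perm R, (∀ j i, K (f j i) j = K i j) ∧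
      (∀ i j k p, j ≠ k → sig j (f j i) = some p → sig k (f k i) ≠ some p) ∧
      (∀ i i' j k p, j ≠ k → Wl i j → Wl i' k → A i j = A i' k → sig j (f j i) = some p →
        sig k (f k i') ≠ some p) ∧
      ∀ i j, Wl i j → A i j ∉ F j (f j i) := by
  classical
  obtain ⟨f, hf⟩ := lopsided (confs K) ⟨1, mem_confs.2 fun j i => rfl⟩ BE (evs K A Wl sig F)
    (nbs (evs K A Wl sig F)) (prb K) (fun e _ => prb_nonneg K e)
    (fun e he => (form h he).2.1)
    (fun e he T hT hdis _ => lop K e (form h he).1 T fun t ht htouch =>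
      disjoint_left.1 hdis ht (mem_nbs.2 ⟨hT ht, htouch⟩))
    (fun e _ => fun t ht => (mem_nbs.1 ht).1) (fun e he => nbs_sum h hn he)
  rw [mem_av, mem_confs] at hf
  obtain ⟨hf1, hf2⟩ := hf
  refine ⟨f, hf1, ?_, ?_, ?_⟩
  · intro i j k p hjk h1 h2
    refine hf2 (dbl j i (f j i) k i (f k i)) ?_ mem_BE_dbl
    unfold evs
    rw [mem_union]
    exact Or.inl (mem_prs.2 ⟨j, i, f j i, k, i, f k i, hjk, rfl, hf1 j i, hf1 k i,
      ⟨p, h1, h2⟩, rfl⟩)
  · intro i i' j k p hjk hw hw' hA h1 h2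
    refine hf2 (dbl j i (f j i) k i' (f k i')) ?_ mem_BE_dbl
    unfold evs
    rw [mem_union, mem_union]
    exact Or.inr (Or.inl (mem_prs.2 ⟨j, i, f j i, k, i', f k i', hjk, ⟨hw, hw', hA⟩,
      hf1 j i, hf1 k i', ⟨p, h1, h2⟩, rfl⟩))
  · intro i j hw hcon
    refine hf2 (sgl j i (f j i)) ?_ mem_BE_sgl
    unfold evs
    rw [mem_union, mem_union]
    exact Or.inr (Or.inr (mem_sgs.2 ⟨j, i, f j i, ⟨hw, hcon⟩, hf1 j i, rfl⟩))

end Pool.Agent.CG61
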