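import Pool.Agent.CG61.Hook
import Pool.Agent.GK71.Sta

set_option autoImplicit false
set_option linter.unusedSectionVars false

/-!
# The context of the rows of a rectangle, and the interface with covers
-/

open Finset

namespace Pool.Agent.CG61

open Pool.Agent.Rl45 Pool.Agent.V3R Pool.Agent.GK71

variable {g m n k : ℕ}

/-- the cells of the rows outside `M'` -/
def oc (M' : Finset (Fin g)) : Finset (Rw g n × Fin n) :=
  (M'ᶜ ×ˢ (univ : Finset (Fin n))).image fun p => (Sum.inl p.1, p.2)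

/-- the private rows -/
def pr (i : Fin g) (v : Fin n) : Rw g n := Sum.inr (i, v)

theorem mem_oc_inl {M' : Finset (Fin g)} {i : Fin g} {v : Fin n} :
    ((Sum.inl i, v) : Rw g n × Fin n) ∈ oc M' ↔ i ∉ M' := by
  unfold oc
  rw [mem_image]
  constructor
  · rintro ⟨p, hp, h⟩
    have h1 := Prod.mk.inj h
    rw [← Sum.inl_injective h1.1]
    exact mem_compl.1 (mem_product.1 hp).1
  · intro h
    exact ⟨(i, v), mem_product.2 ⟨mem_compl.2 h, mem_univ _⟩, rfl⟩

theorem mem_oc_inr {M' : Finset (Fin g)} {p : Fin g × Fin n} {v : Fin n} :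
    ((Sum.inr p, v) : Rw g n × Fin n) ∉ oc M' := by
  unfold oc
  rw [mem_image]
  rintro ⟨q, -, h⟩
  exact Sum.inl_ne_inr (Prod.mk.inj h).1

theorem oc_union (M' : Finset (Fin g)) :
    oc M' ∪ GK71.prs pr M' = (cel M' : Finset (Rw g n × Fin n)) := by
  ext ⟨r, v⟩
  rw [mem_union, GK71.mem_prs]
  rcases r with i | p
  · rw [mem_oc_inl, mem_cel_inl]
    constructor
    · rintro (h | ⟨j, -, h⟩)
      · exact h
      · exact absurd h Sum.inr_ne_inl
    · exact Or.inl
  · rw [mem_cel_inr]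
    constructor
    · rintro (h | ⟨j, hj, h⟩)
      · exact absurd h mem_oc_inr
      · have h1 : (j, v) = p := Sum.inr_injective h
        rw [← h1]
        exact ⟨hj, rfl⟩
    · rintro ⟨h1, h2⟩
      exact Or.inr ⟨p.1, h1, congrArg Sum.inr (Prod.ext rfl h2.symm)⟩

theorem prs_subset {M' J : Finset (Fin g)} (h : J ⊆ M') :
    oc M' ∪ GK71.prs pr J ⊆ (cel M' : Finset (Rw g n × Fin n)) := by
  rw [← oc_union]
  refine union_subset_union subset_rfl ?_
  intro e he
  obtain ⟨i, hi, h1⟩ := GK71.mem_prs.1 he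
  exact GK71.mem_prs.2 ⟨i, h hi, h1⟩

/-- The context of the exchange process. -/
theorem ctx {B : Fin g → Fin n → Fin k} (hB : ∀ i, Function.Injective (B i))
    (M' : Finset (Fin g)) : Ctx (ext B) (oc M') (pr : Fin g → Fin n → Rw g n) := by
  refine ⟨fun r => ext_injective hB r, ?_, ?_, ?_⟩
  · intro i v v' h
    exact hB i h
  · intro i v i' v' h
    exact Prod.mk.inj (Sum.inr_injective h)
  · rintro i v ⟨r, v'⟩ he rfl
    exact mem_oc_inr he

/-- the old cells of a column -/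
theorem card_oc_col (M' : Finset (Fin g)) (v : Fin n) :
    ((oc M' : Finset (Rw g n × Fin n)).filter fun e => e.2 = v).card = M'ᶜ.card := by
  rw [← card_image_of_injective (M'ᶜ) (f := fun i => ((Sum.inl i, v) : Rw g n × Fin n))
    (fun i i' h => Sum.inl_injective (Prod.mk.inj h).1)]
  congr 1
  ext ⟨r, v'⟩
  rw [mem_filter, mem_image]
  constructor
  · rintro ⟨h, rfl⟩
    rcases r with i | p
    · exact ⟨i, mem_compl.2 (mem_oc_inl.1 h), rfl⟩
    · exact absurd h mem_oc_inr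
  · rintro ⟨i, hi, h⟩
    obtain ⟨rfl, rfl⟩ := Prod.mk.inj h
    exact ⟨mem_oc_inl.2 (mem_compl.1 hi), rfl⟩

/-- Everything except the core, for covers. -/
theorem assemble_cov (A : Fin m → Fin n → Fin k) (hA : ∀ i, Function.Injective (A i))
    (hn : 0 < n) {Λ : ℕ} (hΛ : 102400 * (n + 1) ≤ Λ) (E q : ℕ)
    (hm : 64 * ((Nat.log 2 n + 7) * (n * (80 * n * (Nat.log 2 (n * m ^ 2) + 1)))) +
      n * Λ + Λ + 320 * q < m)
    (hcore : ∀ (g : ℕ) (B : Fin g → Fin n → Fin k), (∀ i, Function.Injective (B i)) →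
      ∀ M' : Finset (Fin g), q < M'.card → ∃ (N : ℕ) (C : Finset (Rw g n × Fin n)),
        g ≤ N + E ∧ C ⊆ cel M' ∧ Cov (ext B) N C) :
    ∃ T : Fin (m - E) → Fin n → Fin m,
      (∀ s, Function.Injective (T s)) ∧
      (∀ s, Function.Injective (fun j => A (T s j) j)) ∧
      ∀ j, Function.Injective (fun s => T s j) := by
  refine assemble_fam A hA hn hΛ E q hm fun g B hB M' hM' => ?_
  obtain ⟨N, C, h1, h2, T, h3, h4, h5, h6⟩ := hcore g B hB M' hM'
  exact ⟨N, T, h1, fun s v => h2 ((h6 (T s v, v)).2 ⟨s, rfl⟩), h3, h4, h5⟩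

end Pool.Agent.CG61
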