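import Pool.Agent.APL86.Rows

set_option autoImplicit false

/-!
# Classification of the cells of an array: typed cells and wild cells

Column by column, finitely many symbols are typed; the other cells of the column are wild and form
one class. After the removal of few rows all classes are large on the average, no symbol is
frequent among the wild cells of a column, and no symbol that is not typed in the column occurs in
many of the rows that are wild in the column.
-/

open Finset

namespace Pool.Agent.CG61

open Pool.Agent.APL86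

/-! ### a numerical lemma -/

theorem mul_pow_ge (k t : ℕ) : (k + t) * k ^ t ≤ k * (k + 1) ^ t := by
  induction t with
  | zero => simp
  | succ t ih =>
    calc (k + (t + 1)) * k ^ (t + 1) = (k * (k + t + 1)) * k ^ t := by ring
      _ ≤ ((k + 1) * (k + t)) * k ^ t := by
          apply Nat.mul_le_mul_right
          nlinarith
      _ = (k + 1) * ((k + t) * k ^ t) := by ring
      _ ≤ (k + 1) * (k * (k + 1) ^ t) := Nat.mul_le_mul_left _ ih
      _ = k * (k + 1) ^ (t + 1) := by ring

theorem two_mul_pow_le (k : ℕ) : 2 * k ^ (k + 1) ≤ (k + 1) ^ (k + 1) := by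
  rcases Nat.eq_zero_or_pos k with rfl | hk
  · simp
  · have h := mul_pow_ge k (k + 1)
    have h2 : k * (2 * k ^ (k + 1)) ≤ k * (k + 1) ^ (k + 1) := by
      refine le_trans ?_ h
      calc k * (2 * k ^ (k + 1)) = (2 * k) * k ^ (k + 1) := by ring
        _ ≤ (k + (k + 1)) * k ^ (k + 1) := Nat.mul_le_mul_right _ (by omega)
    exact Nat.le_of_mul_le_mul_left h2 hk

theorem pow_bound {k t X : ℕ} (hk : 0 < k) (h : (k + 1) ^ t ≤ X * k ^ t) :
    t < (k + 1) * (Nat.log 2 X + 1) := by
  by_contra hcon
  push Not at hcon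
  obtain ⟨r, hr⟩ := Nat.exists_eq_add_of_le hcon
  have h1 : 2 ^ (Nat.log 2 X + 1) * k ^ t ≤ (k + 1) ^ t := by
    rw [hr, pow_add k, pow_add (k + 1), pow_mul, pow_mul, ← mul_assoc, ← mul_pow]
    exact Nat.mul_le_mul (Nat.pow_le_pow_left (two_mul_pow_le k) _)
      (Nat.pow_le_pow_left (Nat.le_succ k) _)
  have h2 : X < 2 ^ (Nat.log 2 X + 1) := Nat.lt_pow_succ_log_self one_lt_two X
  have h3 : 0 < k ^ t := pow_pos hk t
  have h4 : X * k ^ t < 2 ^ (Nat.log 2 X + 1) * k ^ t := Nat.mul_lt_mul_of_pos_right h2 h3
  omega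

/-! ### the classes -/

variable {m n : ℕ} {S : Type*} [DecidableEq S]

/-- the rows of `M` which are wild in column `j` -/
def wd (A : Fin m → Fin n → S) (M : Finset (Fin m)) (T : Finset S) (j : Fin n) :
    Finset (Fin m) :=
  M.filter fun i => A i j ∉ T

/-- the rows of `M` with the symbol `z` in column `j` -/
def cl (A : Fin m → Fin n → S) (M : Finset (Fin m)) (j : Fin n) (z : S) : Finset (Fin m) :=
  M.filter fun i => A i j = z

/-- the size of the class of the cell `(i, j)` -/
def sz (A : Fin m → Fin n → S) (M : Finset (Fin m)) (T : Fin n → Finset S) (i : Fin m)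
    (j : Fin n) : ℕ :=
  if A i j ∈ T j then (cl A M j (A i j)).card else (wd A M (T j) j).card

/-- the rows of `W` that contain the symbol `z` -/
def has (A : Fin m → Fin n → S) (W : Finset (Fin m)) (z : S) : Finset (Fin m) :=
  W.filter fun i => z ∈ univ.image (A i)

/-- the number of incidences of wild rows and symbols that are not typed -/
def inc (A : Fin m → Fin n → S) (M : Finset (Fin m)) (T : Finset S) (j : Fin n) : ℕ :=
  ∑ i ∈ wd A M T j, (univ.image (A i) \ T).card

variable {A : Fin m → Fin n → S} {M M' : Finset (Fin m)} {T : Finset S} {j : Fin n}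

theorem wd_mono (h : M' ⊆ M) : wd A M' T j ⊆ wd A M T j := filter_subset_filter _ h

theorem cl_mono (h : M' ⊆ M) (z : S) : cl A M' j z ⊆ cl A M j z := filter_subset_filter _ h

theorem inc_mono (h : M' ⊆ M) : inc A M' T j ≤ inc A M T j :=
  sum_le_sum_of_subset (wd_mono h)

theorem inc_le : inc A M T j ≤ n * (wd A M T j).card := by
  unfold inc
  calc ∑ i ∈ wd A M T j, (univ.image (A i) \ T).card ≤ ∑ _i ∈ wd A M T j, n := by
        refine sum_le_sum fun i _ => (card_le_card sdiff_subset).trans ?_
        exact card_image_le.trans (by rw [card_univ, Fintype.card_fin])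
    _ = n * (wd A M T j).card := by rw [sum_const, smul_eq_mul, mul_comm]

theorem card_le_inc : (wd A M T j).card ≤ inc A M T j := by
  unfold inc
  rw [card_eq_sum_ones]
  refine sum_le_sum fun i hi => card_pos.2 ⟨A i j, mem_sdiff.2 ⟨?_, (mem_filter.1 hi).2⟩⟩
  exact mem_image_of_mem _ (mem_univ j)

theorem wd_insert_card (z : S) :
    (wd A M (insert z T) j).card + (cl A (wd A M T j) j z).card = (wd A M T j).card := by
  have h1 : wd A M (insert z T) j = (wd A M T j).filter fun i => ¬ A i j = z := by
    ext i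
    simp only [wd, mem_filter, mem_insert, not_or]
    tauto
  rw [h1, add_comm]
  exact card_filter_add_card_filter_not (s := wd A M T j) (fun i => A i j = z)

theorem inc_insert (z : S) (hz : z ∉ T) :
    inc A M (insert z T) j + (has A (wd A M T j) z).card ≤ inc A M T j := by
  have h1 : wd A M (insert z T) j ⊆ wd A M T j := by
    intro i hi
    simp only [wd, mem_filter, mem_insert, not_or] at hi ⊢
    exact ⟨hi.1, hi.2.2⟩
  have h2 : inc A M (insert z T) j ≤
      ∑ i ∈ wd A M T j, if A i j = z then 0 else (univ.image (A i) \ insert z T).card := by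
    unfold inc
    calc ∑ i ∈ wd A M (insert z T) j, (univ.image (A i) \ insert z T).card =
          ∑ i ∈ wd A M (insert z T) j,
            if A i j = z then 0 else (univ.image (A i) \ insert z T).card := by
          refine sum_congr rfl fun i hi => ?_
          simp only [wd, mem_filter, mem_insert, not_or] at hi
          rw [if_neg hi.2.1]
      _ ≤ _ := sum_le_sum_of_subset h1
  have h3 : (has A (wd A M T j) z).card =
      ∑ i ∈ wd A M T j, if z ∈ univ.image (A i) then 1 else 0 := by
    unfold has
    rw [card_filter]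
  rw [h3]
  refine (Nat.add_le_add_right h2 _).trans ?_
  rw [← sum_add_distrib]
  unfold inc
  refine sum_le_sum fun i hi => ?_
  have h4 : (univ.image (A i) \ insert z T) = (univ.image (A i) \ T).erase z := by
    ext y
    simp only [mem_sdiff, mem_insert, mem_erase, not_or]
    tauto
  by_cases h5 : z ∈ univ.image (A i)
  · have h6 : z ∈ univ.image (A i) \ T := mem_sdiff.2 ⟨h5, hz⟩
    have h7 : 0 < (univ.image (A i) \ T).card := card_pos.2 ⟨z, h6⟩
    rw [if_pos h5]
    split_ifs
    · omega
    · rw [h4, card_erase_of_mem h6]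
      omega
  · rw [if_neg h5, add_zero]
    split_ifs
    · exact Nat.zero_le _
    · exact card_le_card (by rw [h4]; exact erase_subset _ _)

theorem cl_wd_le_has (z : S) : (cl A (wd A M T j) j z).card ≤ (has A (wd A M T j) z).card := by
  refine card_le_card fun i hi => ?_
  simp only [cl, has, mem_filter] at hi ⊢
  exact ⟨hi.1, hi.2 ▸ mem_image_of_mem _ (mem_univ j)⟩

/-! ### the potential of the typed classes -/

/-- the potential of one column -/
def potc (A : Fin m → Fin n → S) (M : Finset (Fin m)) (T : Finset S) (j : Fin n) : ℚ :=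
  ∑ z ∈ T, harmonic (min (cl A M j z).card (64 * n))

theorem harmonic_nonneg (k : ℕ) : 0 ≤ harmonic k := by
  unfold harmonic
  positivity

theorem potc_nonneg : 0 ≤ potc A M T j := sum_nonneg fun _ _ => harmonic_nonneg _

theorem potc_mono (h : M' ⊆ M) : potc A M' T j ≤ potc A M T j :=
  sum_le_sum fun _ _ => harmonic_mono (min_le_min_right _ (card_le_card (cl_mono h _)))

theorem potc_insert (z : S) (hz : z ∉ T) :
    potc A M (insert z T) j ≤ potc A M T j + harmonic (64 * n) := by
  unfold potc
  rw [sum_insert hz, add_comm]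
  exact add_le_add le_rfl (harmonic_mono (min_le_right _ _))

theorem potc_erase (hn : 0 < n) {i : Fin m} (hi : i ∈ M) (h : A i j ∈ T) :
    potc A (M.erase i) T j + 1 / ((cl A M j (A i j)).card : ℚ) ≤
      potc A M T j + 1 / (64 * n : ℚ) := by
  unfold potc
  rw [← add_sum_erase _ _ h, ← add_sum_erase T (fun z => harmonic (min (cl A M j z).card (64 * n))) h]
  have hrest : ∑ y ∈ T.erase (A i j), harmonic (min (cl A (M.erase i) j y).card (64 * n)) ≤
      ∑ y ∈ T.erase (A i j), harmonic (min (cl A M j y).card (64 * n)) :=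
    sum_le_sum fun _ _ =>
      harmonic_mono (min_le_min_right _ (card_le_card (cl_mono (erase_subset _ _) _)))
  have hmu : (cl A (M.erase i) j (A i j)).card + 1 = (cl A M j (A i j)).card := by
    have h1 : cl A (M.erase i) j (A i j) = (cl A M j (A i j)).erase i := by
      ext x
      simp only [cl, mem_filter, mem_erase]
      tauto
    have h2 : i ∈ cl A M j (A i j) := mem_filter.2 ⟨hi, rfl⟩
    have h3 : 0 < (cl A M j (A i j)).card := card_pos.2 ⟨i, h2⟩
    rw [h1, card_erase_of_mem h2]
    omega
  rw [← hmu]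
  set a := (cl A (M.erase i) j (A i j)).card
  have hn' : (0 : ℚ) < n := by exact_mod_cast hn
  have key : harmonic (min a (64 * n)) + 1 / ((a + 1 : ℕ) : ℚ)
      ≤ harmonic (min (a + 1) (64 * n)) + 1 / (64 * n : ℚ) := by
    rcases Nat.lt_or_ge a (64 * n) with h | h
    · rw [min_eq_left (le_of_lt h), min_eq_left (Nat.succ_le_of_lt h), harmonic_succ]
      have : (0 : ℚ) ≤ 1 / (64 * n : ℚ) := by positivity
      rw [one_div]
      linarith
    · rw [min_eq_right h, min_eq_right (by omega)]
      have : 1 / ((a + 1 : ℕ) : ℚ) ≤ 1 / (64 * n : ℚ) := by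
        apply one_div_le_one_div_of_le
        · positivity
        · have h1 : 64 * n ≤ a + 1 := by omega
          exact_mod_cast h1
      linarith
  linarith

/-! ### the invariants -/

/-- what is kept during the classification -/
structure Inv (A : Fin m → Fin n → S) (Λ : ℕ) (M : Finset (Fin m)) (T : Fin n → Finset S) :
    Prop where
  h1 : ∀ j, (wd A M (T j) j).card * inc A M (T j) j * (80 * n) ^ (T j).card ≤
    n * m ^ 2 * (80 * n - 1) ^ (T j).card
  h2 : ∀ j, T j = ∅ ∨
    (80 * n) ^ ((T j).card - 1) ≤ n * m ^ 2 * (80 * n - 1) ^ ((T j).card - 1)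
  h3 : ∃ x : ℕ, (x : ℚ) / 64 + ∑ j, potc A M (T j) j ≤
      harmonic (64 * n) * ((∑ j, (T j).card : ℕ) : ℚ) ∧
    (Mᶜ).card ≤ x + Λ * (univ.filter fun j => wd A M (T j) j = ∅).card

variable {Λ : ℕ} {T : Fin n → Finset S}

theorem Inv.start : Inv A Λ univ fun _ => ∅ := by
  refine ⟨fun j => ?_, fun j => Or.inl rfl, 0, ?_, by simp⟩
  · have h1 : (wd A univ ∅ j).card ≤ m := (card_le_univ _).trans (by rw [Fintype.card_fin])
    have h2 := inc_le (A := A) (M := univ) (T := ∅) (j := j)
    simp only [card_empty, pow_zero, mul_one]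
    calc (wd A univ ∅ j).card * inc A univ ∅ j ≤ m * (n * m) :=
          Nat.mul_le_mul h1 (h2.trans (Nat.mul_le_mul_left _ h1))
      _ = n * m ^ 2 := by ring
  · simp [potc]

/-- removal of a row -/
theorem Inv.erase (h : Inv A Λ M T) (hn : 0 < n) (hΛ : 64 * n ≤ Λ) {i : Fin m} (hi : i ∈ M)
    (hw : ∀ j, wd A M (T j) j = ∅ ∨ Λ < (wd A M (T j) j).card)
    (hs : (1 : ℚ) / 32 < ∑ j, 1 / (sz A M T i j : ℚ)) : Inv A Λ (M.erase i) T := by
  have hsub : M.erase i ⊆ M := erase_subset _ _
  refine ⟨fun j => le_trans ?_ (h.h1 j), h.h2, ?_⟩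
  · exact Nat.mul_le_mul_right _ (Nat.mul_le_mul (card_le_card (wd_mono hsub)) (inc_mono hsub))
  · obtain ⟨x, hx1, hx2⟩ := h.h3
    refine ⟨x + 1, ?_, ?_⟩
    · have hn' : (0 : ℚ) < n := by exact_mod_cast hn
      have h1 : ∀ j, potc A (M.erase i) (T j) j + 1 / (sz A M T i j : ℚ) ≤
          potc A M (T j) j + 1 / (64 * n : ℚ) := by
        intro j
        by_cases hT : A i j ∈ T j
        · rw [sz, if_pos hT]
          exact potc_erase hn hi hT
        · rw [sz, if_neg hT]
          refine add_le_add (potc_mono hsub) ?_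
          apply one_div_le_one_div_of_le
          · positivity
          · rcases hw j with h2 | h2
            · exfalso
              have h3 : i ∈ wd A M (T j) j := mem_filter.2 ⟨hi, hT⟩
              rw [h2] at h3
              exact notMem_empty _ h3
            · have h3 : 64 * n ≤ (wd A M (T j) j).card := by omega
              exact_mod_cast h3
      have h2 := sum_le_sum fun j (_ : j ∈ (univ : Finset (Fin n))) => h1 j
      rw [sum_add_distrib, sum_add_distrib] at h2
      have h64 : ∑ _j : Fin n, 1 / (64 * n : ℚ) = 1 / 64 := by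
        rw [sum_const, card_univ, Fintype.card_fin, nsmul_eq_mul]
        field_simp
      rw [h64] at h2
      push_cast
      push_cast at hx1
      linarith
    · have h3 : ((M.erase i)ᶜ).card = (Mᶜ).card + 1 := by
        have h1 := card_compl M
        have h2 := card_compl (M.erase i)
        have h3 := card_erase_of_mem hi
        have h4 : 0 < M.card := card_pos.2 ⟨i, hi⟩
        have h5 : M.card ≤ Fintype.card (Fin m) := card_le_univ M
        omega
      have h4 : (univ.filter fun j => wd A M (T j) j = ∅).card ≤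
          (univ.filter fun j => wd A (M.erase i) (T j) j = ∅).card := by
        refine card_le_card fun j hj => ?_
        rw [mem_filter] at hj ⊢
        exact ⟨hj.1, subset_empty.1 (hj.2 ▸ wd_mono hsub)⟩
      have h5 := Nat.mul_le_mul_left Λ h4
      omega

/-- removal of the wild rows of a column with few wild rows -/
theorem Inv.clear (h : Inv A Λ M T) {j₀ : Fin n} (h0 : wd A M (T j₀) j₀ ≠ ∅)
    (h1 : (wd A M (T j₀) j₀).card ≤ Λ) : Inv A Λ (M \ wd A M (T j₀) j₀) T := by
  have hsub : M \ wd A M (T j₀) j₀ ⊆ M := sdiff_subset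
  refine ⟨fun j => le_trans ?_ (h.h1 j), h.h2, ?_⟩
  · exact Nat.mul_le_mul_right _ (Nat.mul_le_mul (card_le_card (wd_mono hsub)) (inc_mono hsub))
  · obtain ⟨x, hx1, hx2⟩ := h.h3
    refine ⟨x, ?_, ?_⟩
    · refine le_trans ?_ hx1
      exact add_le_add le_rfl (sum_le_sum fun j _ => potc_mono hsub)
    · have h2 : (M \ wd A M (T j₀) j₀)ᶜ.card ≤ (Mᶜ).card + Λ := by
        have h3 : (M \ wd A M (T j₀) j₀)ᶜ = Mᶜ ∪ wd A M (T j₀) j₀ := by
          ext i
          simp only [mem_compl, mem_sdiff, mem_union]
          tauto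
        rw [h3]
        exact (card_union_le _ _).trans (Nat.add_le_add_left h1 _)
      have h3 : (univ.filter fun j => wd A M (T j) j = ∅).card + 1 ≤
          (univ.filter fun j => wd A (M \ wd A M (T j₀) j₀) (T j) j = ∅).card := by
        have h4 : j₀ ∉ univ.filter fun j => wd A M (T j) j = ∅ := by
          rw [mem_filter]
          exact fun h => h0 h.2
        rw [← card_insert_of_notMem h4]
        refine card_le_card fun j hj => ?_
        rw [mem_insert] at hj
        rw [mem_filter]
        refine ⟨mem_univ _, ?_⟩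
        rcases hj with rfl | hj
        · rw [eq_empty_iff_forall_notMem]
          intro i hi
          simp only [wd, mem_filter, mem_sdiff] at hi
          tauto
        · rw [mem_filter] at hj
          exact subset_empty.1 (hj.2 ▸ wd_mono hsub)
      have h5 := Nat.mul_le_mul_left Λ h3
      rw [Nat.mul_add, mul_one] at h5
      omega

/-- a new typed symbol -/
theorem Inv.type (h : Inv A Λ M T) (hn : 0 < n) {j₀ : Fin n} {z : S} (hz : z ∉ T j₀)
    (h0 : wd A M (T j₀) j₀ ≠ ∅)
    (h1 : (wd A M (T j₀) j₀).card < 80 * n * (cl A (wd A M (T j₀) j₀) j₀ z).card ∨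
      (wd A M (T j₀) j₀).card < 80 * (has A (wd A M (T j₀) j₀) z).card) :
    Inv A Λ M (Function.update T j₀ (insert z (T j₀))) := by
  have hc := wd_insert_card (A := A) (M := M) (T := T j₀) (j := j₀) z
  have hi := inc_insert (A := A) (M := M) (T := T j₀) (j := j₀) z hz
  have hl := inc_le (A := A) (M := M) (T := T j₀) (j := j₀)
  have hg := card_le_inc (A := A) (M := M) (T := T j₀) (j := j₀)
  have hp : 0 < (wd A M (T j₀) j₀).card := card_pos.2 (nonempty_iff_ne_empty.2 h0)
  set r := (wd A M (T j₀) j₀).card with hr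
  set I := inc A M (T j₀) j₀ with hI
  set r' := (wd A M (insert z (T j₀)) j₀).card with hr'
  set I' := inc A M (insert z (T j₀)) j₀ with hI'
  set t := (T j₀).card with ht
  obtain ⟨k, hk⟩ : ∃ k, 80 * n = k + 1 := ⟨80 * n - 1, by omega⟩
  have hk' : 80 * n - 1 = k := by omega
  have hprod : r' * I' * (k + 1) ≤ r * I * k := by
    have hr1 : r' ≤ r := by omega
    have hI1 : I' ≤ I := by omega
    rcases h1 with h1 | h1
    · have h2 : r' * (k + 1) ≤ r * k := by
        rw [hk] at h1
        nlinarith
      calc r' * I' * (k + 1) = (r' * (k + 1)) * I' := by ring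
        _ ≤ (r * k) * I := Nat.mul_le_mul h2 hI1
        _ = r * I * k := by ring
    · have h2 : I' * (k + 1) ≤ I * k := by
        have h3 : I < (k + 1) * (has A (wd A M (T j₀) j₀) z).card := by
          calc I ≤ n * r := hl
            _ < n * (80 * (has A (wd A M (T j₀) j₀) z).card) :=
                Nat.mul_lt_mul_of_pos_left h1 hn
            _ = (k + 1) * (has A (wd A M (T j₀) j₀) z).card := by rw [← hk]; ring
        nlinarith
      calc r' * I' * (k + 1) = r' * (I' * (k + 1)) := by ring
        _ ≤ r * (I * k) := Nat.mul_le_mul hr1 h2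
        _ = r * I * k := by ring
  have hcard : (insert z (T j₀)).card = t + 1 := card_insert_of_notMem hz
  have hold := h.h1 j₀
  rw [← hr, ← hI, ← ht, hk', hk] at hold
  have hnew : r' * I' * (k + 1) ^ (t + 1) ≤ n * m ^ 2 * k ^ (t + 1) := by
    calc r' * I' * (k + 1) ^ (t + 1) = (r' * I' * (k + 1)) * (k + 1) ^ t := by ring
      _ ≤ (r * I * k) * (k + 1) ^ t := Nat.mul_le_mul_right _ hprod
      _ = (r * I * (k + 1) ^ t) * k := by ring
      _ ≤ (n * m ^ 2 * k ^ t) * k := Nat.mul_le_mul_right _ hold
      _ = n * m ^ 2 * k ^ (t + 1) := by ring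
  refine ⟨fun j => ?_, fun j => ?_, ?_⟩
  · rcases eq_or_ne j j₀ with rfl | hj
    · rw [Function.update_self, hcard, hk', hk]
      exact hnew
    · rw [Function.update_of_ne hj]
      exact h.h1 j
  · rcases eq_or_ne j j₀ with rfl | hj
    · right
      rw [Function.update_self, hcard, hk', hk, Nat.add_sub_cancel]
      refine le_trans ?_ hold
      exact Nat.le_mul_of_pos_left _ (Nat.mul_pos hp (lt_of_lt_of_le hp hg))
    · rw [Function.update_of_ne hj]
      exact h.h2 j
  · obtain ⟨x, hx1, hx2⟩ := h.h3
    refine ⟨x, ?_, ?_⟩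
    · have e1 : ∑ j, potc A M (Function.update T j₀ (insert z (T j₀)) j) j ≤
          ∑ j, potc A M (T j) j + harmonic (64 * n) := by
        rw [← add_sum_erase _ _ (mem_univ j₀), ← add_sum_erase univ (fun j => potc A M (T j) j)
          (mem_univ j₀), Function.update_self]
        have e2 : ∑ j ∈ univ.erase j₀, potc A M (Function.update T j₀ (insert z (T j₀)) j) j =
            ∑ j ∈ univ.erase j₀, potc A M (T j) j :=
          sum_congr rfl fun j hj => by rw [Function.update_of_ne (ne_of_mem_erase hj)]
        rw [e2]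
        have := potc_insert (A := A) (M := M) (T := T j₀) (j := j₀) z hz
        linarith
      have e3 : ∑ j, (Function.update T j₀ (insert z (T j₀)) j).card = ∑ j, (T j).card + 1 := by
        rw [← add_sum_erase _ _ (mem_univ j₀), ← add_sum_erase univ (fun j => (T j).card)
          (mem_univ j₀), Function.update_self, hcard]
        have e2 : ∑ j ∈ univ.erase j₀, (Function.update T j₀ (insert z (T j₀)) j).card =
            ∑ j ∈ univ.erase j₀, (T j).card :=
          sum_congr rfl fun j hj => by rw [Function.update_of_ne (ne_of_mem_erase hj)]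
        rw [e2]
        omega
      rw [e3]
      push_cast
      push_cast at hx1
      linarith
    · refine hx2.trans (Nat.add_le_add_left (Nat.mul_le_mul_left _ (card_le_card ?_)) _)
      intro j hj
      rw [mem_filter] at hj ⊢
      refine ⟨hj.1, ?_⟩
      rcases eq_or_ne j j₀ with rfl | hj'
      · exact absurd hj.2 h0
      · rw [Function.update_of_ne hj']
        exact hj.2

/-- the number of typed symbols in a column -/
theorem Inv.card_le (h : Inv A Λ M T) (hn : 0 < n) (j : Fin n) :
    (T j).card ≤ 80 * n * (Nat.log 2 (n * m ^ 2) + 1) := by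
  rcases h.h2 j with h1 | h1
  · rw [h1, card_empty]
    exact Nat.zero_le _
  · obtain ⟨k, hk⟩ : ∃ k, 80 * n = k + 1 := ⟨80 * n - 1, by omega⟩
    have hk' : 80 * n - 1 = k := by omega
    rw [hk', hk] at h1
    have h2 := pow_bound (by omega) h1
    rw [hk]
    omega

theorem log_bound (hn : 0 < n) : harmonic (64 * n) ≤ (Nat.log 2 n : ℚ) + 7 := by
  refine (harmonic_le_log _).trans ?_
  have hlog : Nat.log 2 (64 * n) = Nat.log 2 n + 6 := by
    have h64 : 64 * n = n * 2 * 2 * 2 * 2 * 2 * 2 := by ring
    rw [h64, Nat.log_mul_base one_lt_two (by omega), Nat.log_mul_base one_lt_two (by omega),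
      Nat.log_mul_base one_lt_two (by omega), Nat.log_mul_base one_lt_two (by omega),
      Nat.log_mul_base one_lt_two (by omega), Nat.log_mul_base one_lt_two (by omega)]
  rw [hlog]
  push_cast
  linarith

/-- The classification. -/
theorem exists_class (hn : 0 < n) (A : Fin m → Fin n → S) {Λ : ℕ} (hΛ : 64 * n ≤ Λ) :
    ∃ (M : Finset (Fin m)) (T : Fin n → Finset S),
      (∀ i ∈ M, ∑ j, 1 / (sz A M T i j : ℚ) ≤ 1 / 32) ∧
      (∀ j, wd A M (T j) j = ∅ ∨ Λ < (wd A M (T j) j).card) ∧
      (∀ j, ∀ z ∉ T j, 80 * n * (cl A (wd A M (T j) j) j z).card ≤ (wd A M (T j) j).card) ∧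
      (∀ j, ∀ z ∉ T j, 80 * (has A (wd A M (T j) j) z).card ≤ (wd A M (T j) j).card) ∧
      (Mᶜ).card ≤ 64 * ((Nat.log 2 n + 7) * (n * (80 * n * (Nat.log 2 (n * m ^ 2) + 1)))) +
        n * Λ := by
  classical
  set tm := 80 * n * (Nat.log 2 (n * m ^ 2) + 1) with htm
  have hex : ∃ N, ∃ M T, Inv A Λ M T ∧ M.card + (n * tm - ∑ j, (T j).card) = N :=
    ⟨_, univ, fun _ => ∅, Inv.start, rfl⟩
  obtain ⟨M, T, hI, hN⟩ := Nat.find_spec hex
  have hmin : ∀ M' T', Inv A Λ M' T' → M.card + (n * tm - ∑ j, (T j).card) ≤
      M'.card + (n * tm - ∑ j, (T' j).card) := by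
    intro M' T' h
    rw [hN]
    exact Nat.find_min' hex ⟨M', T', h, rfl⟩
  have htot : ∀ (M' : Finset (Fin m)) (T' : Fin n → Finset S), Inv A Λ M' T' →
      ∑ j, (T' j).card ≤ n * tm := by
    intro M' T' h
    calc ∑ j, (T' j).card ≤ ∑ _j : Fin n, tm := sum_le_sum fun j _ => h.card_le hn j
      _ = n * tm := by rw [sum_const, card_univ, Fintype.card_fin, smul_eq_mul]
  have hw : ∀ j, wd A M (T j) j = ∅ ∨ Λ < (wd A M (T j) j).card := by
    intro j
    by_contra hcon
    push Not at hcon
    have h1 := hmin _ _ (hI.clear (nonempty_iff_ne_empty.1 hcon.1) hcon.2)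
    have h2 : (M \ wd A M (T j) j).card < M.card := by
      refine card_lt_card ?_
      rw [ssubset_iff_subset_ne]
      refine ⟨sdiff_subset, fun h3 => ?_⟩
      obtain ⟨i, hi⟩ := hcon.1
      have h4 : i ∈ M := (mem_filter.1 hi).1
      rw [← h3] at h4
      exact (mem_sdiff.1 h4).2 hi
    omega
  have ht : ∀ j, ∀ z ∉ T j, wd A M (T j) j ≠ ∅ →
      ¬ ((wd A M (T j) j).card < 80 * n * (cl A (wd A M (T j) j) j z).card ∨
        (wd A M (T j) j).card < 80 * (has A (wd A M (T j) j) z).card) := by
    intro j z hz h0 hcon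
    have h1 := hI.type hn hz h0 hcon
    have h2 := hmin _ _ h1
    have h3 := htot _ _ h1
    have e3 : ∑ i, (Function.update T j (insert z (T j)) i).card = ∑ i, (T i).card + 1 := by
      rw [← add_sum_erase _ _ (mem_univ j), ← add_sum_erase univ (fun i => (T i).card)
        (mem_univ j), Function.update_self, card_insert_of_notMem hz]
      have e2 : ∑ i ∈ univ.erase j, (Function.update T j (insert z (T j)) i).card =
          ∑ i ∈ univ.erase j, (T i).card :=
        sum_congr rfl fun i hi => by rw [Function.update_of_ne (ne_of_mem_erase hi)]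
      rw [e2]
      omega
    omega
  refine ⟨M, T, ?_, hw, ?_, ?_, ?_⟩
  · intro i hi
    by_contra hcon
    push Not at hcon
    have h1 := hmin _ _ (hI.erase hn hΛ hi hw hcon)
    have h2 := card_erase_lt_of_mem hi
    omega
  · intro j z hz
    by_cases h0 : wd A M (T j) j = ∅
    · rw [h0]
      simp [cl]
    · have := ht j z hz h0
      push Not at this
      exact this.1
  · intro j z hz
    by_cases h0 : wd A M (T j) j = ∅
    · rw [h0]
      simp [has]
    · have := ht j z hz h0
      push Not at this
      exact this.2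
  · obtain ⟨x, hx1, hx2⟩ := hI.h3
    have h1 : (univ.filter fun j => wd A M (T j) j = ∅).card ≤ n :=
      (card_le_univ _).trans (by rw [Fintype.card_fin])
    have h2 : x ≤ 64 * ((Nat.log 2 n + 7) * (n * tm)) := by
      have h3 : (0 : ℚ) ≤ ∑ j, potc A M (T j) j := sum_nonneg fun _ _ => potc_nonneg
      have h4 : ((∑ j, (T j).card : ℕ) : ℚ) ≤ ((n * tm : ℕ) : ℚ) := by
        exact_mod_cast htot _ _ hI
      have h5 : harmonic (64 * n) * ((∑ j, (T j).card : ℕ) : ℚ) ≤
          ((Nat.log 2 n : ℚ) + 7) * ((n * tm : ℕ) : ℚ) :=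
        mul_le_mul (log_bound hn) h4 (Nat.cast_nonneg _) (by positivity)
      have h6 : (x : ℚ) ≤ ((64 * ((Nat.log 2 n + 7) * (n * tm)) : ℕ) : ℚ) := by
        push_cast
        push_cast at h5 hx1
        linarith
      exact_mod_cast h6
    have h3 := Nat.mul_le_mul_left Λ h1
    have h4 : Λ * n = n * Λ := Nat.mul_comm _ _
    omega

end Pool.Agent.CG61
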