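import Pool.Agent.CG61.AllK
import Pool.Agent.V98.All

set_option autoImplicit false
set_option linter.unusedSectionVars false

/-!
# All numbers of symbols, up to the start of the process
-/

open Finset

namespace Pool.Agent.CG61

open Pool.Agent.Rl45 Pool.Agent.V3R Pool.Agent.GK71 Pool.Agent.V98

/-- The exact number for all `k`, from the start of the process. -/
theorem all_k_of_start {m n k : ℕ} (q : ℕ)
    (hq : q ≤ 700000 * (n ^ 2 * (Nat.log 2 n + 1) ^ 2))
    (hstart : ∀ (g : ℕ) (B : Fin g → Fin n → Fin k), (∀ i, Function.Injective (B i)) →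
      ∀ M' : Finset (Fin g), q < M'.card →
      ∃ (R₀ d₀ : ℕ) (P : Finset (Fin k)) (Jp : Finset (Fin n))
        (x : Dt (Rw g n) (Fin n) (Fin k) (Fin g)),
        3 * Fintype.card (Fin n) ≤ R₀ + 1 ∧ Rich (ext B) (FZ86.Lc M') P Jp d₀ ∧
        Ext (ext B) (FZ86.Lc M') FZ86.prv M' P (R₀ + 3) (3 * Fintype.card (Fin n)) x ∧
        Ph2 (ext B) (FZ86.Lc M') P Jp d₀ x ∧
        Bud (FZ86.Lc M') (R₀ + 3) (3 * Fintype.card (Fin n)) x)
    (hn : 1 ≤ n) (hm : 2 ^ 29 * (n ^ 2 * (Nat.log 2 n + 1) ^ 2) < m)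
    (A : Fin m → Fin n → Fin k) (hA : ∀ i, Function.Injective (A i)) :
    ∃ T : Fin (m - (n - 1)) → Fin n → Fin m,
      (∀ s, Function.Injective (T s)) ∧
      (∀ s, Function.Injective (fun j => A (T s j) j)) ∧
      ∀ j, Function.Injective (fun s => T s j) := by
  refine all_k_of q hq (fun g B hB M' hM' v => ?_) hn hm A hA
  obtain ⟨R₀, d₀, P, Jp, x, h1, h2, h3, h4, h5⟩ := hstart g B hB M' hM'
  exact run (FZ86.ctx hB M') h1 (by rw [Fintype.card_fin]; exact hn) h2 h3 h4 h5 v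

end Pool.Agent.CG61
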