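import Pool.Agent.CG61.Assign
import Pool.Agent.CG61.Class

set_option autoImplicit false
set_option linter.unusedSectionVars false

/-!
# From slots back to cells

`M` is a set of rows with typed and wild cells, `Q` is a part of `M`. A family of sections that
consists of cells of rows outside `M` and of slots of rows in `Q` is given; the rows of `M` outside
`Q` are sections of their own. All slots can be replaced by cells of rows in `M` such that all
sections become transversals.
-/

open Finset

namespace Pool.Agent.CG61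

variable {m n N : ℕ} {S : Type*} [DecidableEq S]

/-- A section cell: a cell of the row `i` (`Sum.inl i`) or a slot (`Sum.inr i`). -/
structure Secs (A : Fin m → Fin n → S) (M Q : Finset (Fin m)) (Ty : Fin n → Finset S)
    (T : Fin N → Fin n → Fin m ⊕ Fin m) : Prop where
  row : ∀ s v i, T s v = Sum.inl i → i ∉ M
  slot : ∀ s v i, T s v = Sum.inr i → i ∈ Q
  rdis : ∀ s v v' i, T s v = Sum.inl i → T s v' = Sum.inl i → v = v'
  cdis : ∀ v s s', T s v = T s' v → s = s'
  sdis : ∀ s v v' (i i' : Fin m), (T s v = Sum.inl i ∨ T s v = Sum.inr i ∧ A i v ∈ Ty v) →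
    (T s v' = Sum.inl i' ∨ T s v' = Sum.inr i' ∧ A i' v' ∈ Ty v') → A i v = A i' v' → v = v'

/-- the class labels -/
def lab (A : Fin m → Fin n → S) (M : Finset (Fin m)) (Ty : Fin n → Finset S) (r : M)
    (j : Fin n) : Option S :=
  if A r j ∈ Ty j then some (A r j) else none

theorem lab_eq_none {A : Fin m → Fin n → S} {M : Finset (Fin m)} {Ty : Fin n → Finset S} {r : M}
    {j : Fin n} : lab A M Ty r j = none ↔ A r j ∉ Ty j := by
  unfold lab
  split_ifs with h
  · simp [h]
  · simp [h]

theorem lab_eq_some {A : Fin m → Fin n → S} {M : Finset (Fin m)} {Ty : Fin n → Finset S} {r : M}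
    {j : Fin n} {z : S} : lab A M Ty r j = some z ↔ A r j ∈ Ty j ∧ A r j = z := by
  unfold lab
  split_ifs with h
  · simp [h]
  · simp [h]

theorem card_sub (M X : Finset (Fin m)) (h : X ⊆ M) (Z : Finset M)
    (hZ : ∀ r : M, r ∈ Z ↔ (r : Fin m) ∈ X) : Z.card = X.card := by
  rw [← card_image_of_injective Z Subtype.val_injective]
  congr 1
  ext x
  rw [mem_image]
  constructor
  · rintro ⟨r, hr, rfl⟩
    exact (hZ r).1 hr
  · intro hx
    exact ⟨⟨x, h hx⟩, (hZ _).2 hx, rfl⟩

theorem card_sub_le (M X : Finset (Fin m)) (Z : Finset M) (hZ : ∀ r ∈ Z, (r : Fin m) ∈ X) :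
    Z.card ≤ X.card := by
  rw [← card_image_of_injective Z Subtype.val_injective]
  refine card_le_card fun x hx => ?_
  obtain ⟨r, hr, rfl⟩ := mem_image.1 hx
  exact hZ r hr

theorem card_kl (A : Fin m → Fin n → S) (M : Finset (Fin m)) (Ty : Fin n → Finset S) (r : M)
    (j : Fin n) : (kl (lab A M Ty) r j).card = sz A M Ty r j := by
  unfold sz
  split_ifs with h
  · refine card_sub M _ (filter_subset _ _) _ fun x => ?_
    rw [mem_kl]
    have h1 : lab A M Ty r j = some (A r j) := lab_eq_some.2 ⟨h, rfl⟩
    rw [h1, lab_eq_some]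
    simp only [mem_filter]
    constructor
    · rintro ⟨-, h2⟩
      exact ⟨x.2, h2⟩
    · rintro ⟨-, h2⟩
      exact ⟨h2 ▸ h, h2⟩
  · refine card_sub M _ (filter_subset _ _) _ fun x => ?_
    rw [mem_kl]
    have h1 : lab A M Ty r j = none := lab_eq_none.2 h
    rw [h1, lab_eq_none]
    simp only [mem_filter]
    constructor
    · exact fun h2 => ⟨x.2, h2⟩
    · exact fun h2 => h2.2

open Classical in
/-- The slots are replaced by cells. -/
theorem finish (A : Fin m → Fin n → S) (hA : ∀ i, Function.Injective (A i)) (hn : 0 < n)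
    (M Q : Finset (Fin m)) (hQ : Q ⊆ M) (Ty : Fin n → Finset S)
    (hs : ∀ i ∈ M, ∑ j, 1 / (sz A M Ty i j : ℚ) ≤ 1 / 32)
    (hc : ∀ j, ∀ z ∉ Ty j,
      80 * n * (cl A (wd A M (Ty j) j) j z).card ≤ (wd A M (Ty j) j).card)
    (hh : ∀ j, ∀ z ∉ Ty j, 80 * (has A (wd A M (Ty j) j) z).card ≤ (wd A M (Ty j) j).card)
    (hq : ∀ j, 80 * (wd A M (Ty j) j ∩ Q).card ≤ (wd A M (Ty j) j).card)
    {T : Fin N → Fin n → Fin m ⊕ Fin m} (hT : Secs A M Q Ty T) :
    ∃ T' : (Fin N ⊕ {i // i ∈ M \ Q}) → Fin n → Fin m,
      (∀ s, Function.Injective (T' s)) ∧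
      (∀ s, Function.Injective (fun j => A (T' s j) j)) ∧
      ∀ j, Function.Injective (fun s => T' s j) := by
  -- the sections of the slots
  let sig : Fin n → M → Option (Fin N ⊕ {i // i ∈ M \ Q}) := fun j r =>
    if h : (r : Fin m) ∈ Q then
      (if h' : ∃ s, T s j = Sum.inr (r : Fin m) then some (Sum.inl h'.choose) else none)
    else some (Sum.inr ⟨r, mem_sdiff.2 ⟨r.2, h⟩⟩)
  have sig1 : ∀ j (r : M) s, sig j r = some (Sum.inl s) ↔ T s j = Sum.inr (r : Fin m) := by
    intro j r s
    simp only [sig]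
    split_ifs with h1 h2
    · rw [Option.some.injEq, Sum.inl.injEq]
      constructor
      · intro h3
        rw [← h3]
        exact h2.choose_spec
      · intro h3
        exact hT.cdis j _ _ (h2.choose_spec.trans h3.symm)
    · constructor
      · intro h3
        exact absurd h3 (by simp)
      · intro h3
        exact absurd ⟨s, h3⟩ h2
    · constructor
      · intro h3
        exact absurd h3 (by simp)
      · intro h3
        exact absurd (hT.slot _ _ _ h3) h1
  have sig2 : ∀ j (r : M) (x : {i // i ∈ M \ Q}),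
      sig j r = some (Sum.inr x) ↔ (r : Fin m) = x := by
    intro j r x
    simp only [sig]
    split_ifs with h1 h2
    · constructor
      · intro h3
        exact absurd h3 (by simp)
      · intro h3
        exact absurd (h3 ▸ h1) (mem_sdiff.1 x.2).2
    · constructor
      · intro h3
        exact absurd h3 (by simp)
      · intro h3
        exact absurd (h3 ▸ h1) (mem_sdiff.1 x.2).2
    · rw [Option.some.injEq, Sum.inr.injEq, Subtype.ext_iff]
  -- the forbidden symbols
  let G : (Fin N ⊕ {i // i ∈ M \ Q}) → Finset S := fun p => match p with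
    | Sum.inl s => univ.biUnion fun k => match T s k with
        | Sum.inl i => {A i k}
        | Sum.inr i => if A i k ∈ Ty k then {A i k} else ∅
    | Sum.inr x => (univ.filter fun k => A x k ∈ Ty k).image fun k => A x k
  have G1 : ∀ s z, z ∈ G (Sum.inl s) ↔ ∃ k i,
      (T s k = Sum.inl i ∨ T s k = Sum.inr i ∧ A i k ∈ Ty k) ∧ A i k = z := by
    intro s z
    simp only [G, mem_biUnion, mem_univ, true_and]
    constructor
    · rintro ⟨k, hk⟩
      rcases h : T s k with i | i
      · rw [h] at hk
        exact ⟨k, i, Or.inl h, (mem_singleton.1 hk).symm⟩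
      · rw [h] at hk
        dsimp only at hk
        split_ifs at hk with h1
        · exact ⟨k, i, Or.inr ⟨h, h1⟩, (mem_singleton.1 hk).symm⟩
        · exact absurd hk (notMem_empty _)
    · rintro ⟨k, i, h | ⟨h, h1⟩, rfl⟩
      · exact ⟨k, by rw [h]; exact mem_singleton_self _⟩
      · exact ⟨k, by rw [h]; dsimp only; rw [if_pos h1]; exact mem_singleton_self _⟩
  have G2 : ∀ (x : {i // i ∈ M \ Q}) z, z ∈ G (Sum.inr x) ↔ ∃ k, A x k ∈ Ty k ∧ A x k = z := by
    intro x z
    simp only [G, mem_image, mem_filter, mem_univ, true_and]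
  have Gcard : ∀ p, (G p).card ≤ n := by
    intro p
    rcases p with s | x
    · simp only [G]
      refine card_biUnion_le.trans ?_
      calc _ ≤ ∑ _k : Fin n, 1 := by
            refine sum_le_sum fun k _ => ?_
            rcases T s k with i | i
            · simp
            · dsimp only
              split_ifs <;> simp
        _ = n := by simp
    · simp only [G]
      refine card_image_le.trans ((card_le_univ _).trans (by rw [Fintype.card_fin]))
  let F : Fin n → M → Finset S := fun j r => match sig j r with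
    | none => ∅
    | some p => G p
  have F1 : ∀ j r p, sig j r = some p → F j r = G p := by
    intro j r p h
    simp only [F, h]
  have F0 : ∀ j r, sig j r = none → F j r = ∅ := by
    intro j r h
    simp only [F, h]
  have hD : Data (lab A M Ty) (fun (r : M) j => A r j) (fun (r : M) j => A r j ∉ Ty j) sig F := by
    refine ⟨?_, ?_, ?_, ?_, ?_, ?_⟩
    · intro i r j h1 h2
      rw [← lab_eq_none] at h2 ⊢
      rw [h1, h2]
    · intro j r r' p h1 h2
      rcases p with s | x
      · rw [sig1] at h1 h2
        exact Subtype.ext (Sum.inr_injective (h1.symm.trans h2))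
      · rw [sig2] at h1 h2
        exact Subtype.ext (h1.trans h2.symm)
    · intro i
      refine le_trans (le_of_eq ?_) (hs i i.2)
      exact sum_congr rfl fun j _ => by rw [card_kl]
    · intro i j z h1 Z hZ
      rw [card_kl, sz, if_neg h1]
      rcases Z.eq_empty_or_nonempty with h2 | ⟨x, hx⟩
      · rw [h2, card_empty, mul_zero]
        exact Nat.zero_le _
      have h3 : ∀ r ∈ Z, A r j ∉ Ty j := by
        intro r hr
        rw [← lab_eq_none, (hZ r hr).1, lab_eq_none]
        exact h1
      refine le_trans (Nat.mul_le_mul_left _ (card_sub_le M (cl A (wd A M (Ty j) j) j z) Z ?_))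
        (hc j z ((hZ x hx).2 ▸ h3 x hx))
      intro r hr
      rw [cl, mem_filter, wd, mem_filter]
      exact ⟨⟨r.2, h3 r hr⟩, (hZ r hr).2⟩
    · intro j r
      rcases h : sig j r with _ | p
      · rw [F0 j r h, card_empty]
        exact Nat.zero_le _
      · rw [F1 j r p h]
        exact Gcard p
    · intro i j h1 Z hZ
      rw [card_kl, sz, if_neg h1]
      have h3 : ∀ r ∈ Z, A r j ∉ Ty j := by
        intro r hr
        rw [← lab_eq_none, (hZ r hr).1, lab_eq_none]
        exact h1
      have h4 : Z.card ≤ (has A (wd A M (Ty j) j) (A i j)).card +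
          (wd A M (Ty j) j ∩ Q).card := by
        refine le_trans ?_ (card_union_le _ _)
        refine card_sub_le M _ Z fun r hr => ?_
        rw [mem_union]
        by_cases hrQ : (r : Fin m) ∈ Q
        · right
          rw [mem_inter, wd, mem_filter]
          exact ⟨⟨r.2, h3 r hr⟩, hrQ⟩
        · left
          have h5 : sig j r = some (Sum.inr ⟨r, mem_sdiff.2 ⟨r.2, hrQ⟩⟩) := (sig2 _ _ _).2 rfl
          have h6 := (hZ r hr).2
          rw [F1 j r _ h5, G2] at h6
          obtain ⟨k, -, h7⟩ := h6
          rw [has, mem_filter, wd, mem_filter]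
          exact ⟨⟨r.2, h3 r hr⟩, mem_image.2 ⟨k, mem_univ _, h7⟩⟩
      have h5 := hh j (A i j) h1
      have h6 := hq j
      omega
  obtain ⟨f, f1, f2, f3, f4⟩ := reassign hD hn
  -- the new sections
  let cell : Fin n → M → Fin m := fun v i => ((f v).symm i : M)
  have hcellM : ∀ v i, cell v i ∈ M := fun v i => ((f v).symm i).2
  let T' : (Fin N ⊕ {i // i ∈ M \ Q}) → Fin n → Fin m := fun p v => match p with
    | Sum.inl s => match T s v with
        | Sum.inl i => i
        | Sum.inr i => if h : i ∈ M then cell v ⟨i, h⟩ else i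
    | Sum.inr x => cell v ⟨x, (mem_sdiff.1 x.2).1⟩
  -- every new cell is an old cell or comes from a slot
  have key : ∀ p v, (∃ s i, p = Sum.inl s ∧ T s v = Sum.inl i ∧ T' p v = i) ∨
      ∃ r : M, sig v r = some p ∧ T' p v = cell v r := by
    intro p v
    rcases p with s | x
    · rcases h : T s v with i | i
      · left
        refine ⟨s, i, rfl, h, ?_⟩
        simp only [T', h]
      · right
        have hi : i ∈ M := hQ (hT.slot _ _ _ h)
        refine ⟨⟨i, hi⟩, (sig1 _ _ _).2 h, ?_⟩
        simp only [T', h, dif_pos hi]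
    · right
      exact ⟨⟨x, (mem_sdiff.1 x.2).1⟩, (sig2 _ _ _).2 rfl, rfl⟩
  have hsg : ∀ v (r : M), f v ((f v).symm r) = r := fun v r => Equiv.apply_symm_apply _ _
  -- the symbols that are forbidden
  have hreal : ∀ s v i, T s v = Sum.inl i → A i v ∈ G (Sum.inl s) := fun s v i h =>
    (G1 _ _).2 ⟨v, i, Or.inl h, rfl⟩
  have htyp : ∀ p v (r : M), sig v r = some p → A r v ∈ Ty v → A r v ∈ G p := by
    intro p v r h1 h2
    rcases p with s | x
    · exact (G1 _ _).2 ⟨v, r, Or.inr ⟨(sig1 _ _ _).1 h1, h2⟩, rfl⟩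
    · have h3 := (sig2 _ _ _).1 h1
      exact (G2 _ _).2 ⟨v, h3 ▸ h2, by rw [h3]⟩
  -- the symbol of the new cell is the typed symbol of the slot, or wild
  have hsym : ∀ v (r : M), (A r v ∈ Ty v ∧ A (cell v r) v = A r v) ∨
      (A r v ∉ Ty v ∧ A (cell v r) v ∉ Ty v) := by
    intro v r
    have h1 := f1 v ((f v).symm r)
    rw [hsg] at h1
    by_cases h2 : A r v ∈ Ty v
    · left
      refine ⟨h2, ?_⟩
      have h3 : lab A M Ty r v = some (A r v) := lab_eq_some.2 ⟨h2, rfl⟩
      rw [h3] at h1
      exact (lab_eq_some.1 h1.symm).2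
    · right
      refine ⟨h2, ?_⟩
      have h3 : lab A M Ty r v = none := lab_eq_none.2 h2
      rw [h3] at h1
      exact lab_eq_none.1 h1.symm
  -- wild cells avoid the forbidden symbols
  have hwild : ∀ p v (r : M), sig v r = some p → A r v ∉ Ty v → A (cell v r) v ∉ G p := by
    intro p v r h1 h2
    have h3 := f4 ((f v).symm r) v (by
      rcases hsym v r with h4 | h4
      · exact absurd h4.1 h2
      · exact h4.2)
    rw [hsg, F1 v r p h1] at h3
    exact h3
  refine ⟨T', ?_, ?_, ?_⟩
  · intro p v v' h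
    by_contra hv
    rcases key p v with ⟨s, i, h1, h2, h3⟩ | ⟨r, h1, h2⟩ <;>
      rcases key p v' with ⟨s', i', h1', h2', h3'⟩ | ⟨r', h1', h2'⟩
    · rw [h1] at h1'
      rw [Sum.inl_injective h1', ← h3, h, h3'] at h2
      exact hv (hT.rdis _ _ _ _ h2 h2')
    · apply hT.row _ _ _ h2
      rw [← h3, h, h2']
      exact hcellM _ _
    · apply hT.row _ _ _ h2'
      rw [← h3', ← h, h2]
      exact hcellM _ _
    · have h3 : (f v).symm r = (f v').symm r' := by
        apply Subtype.ext
        change cell v r = cell v' r'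
        rw [← h2, ← h2', h]
      refine f2 ((f v).symm r) v v' p hv ?_ ?_
      · rw [hsg]
        exact h1
      · rw [h3, hsg]
        exact h1'
  · intro p v v' h₀
    have h : A (T' p v) v = A (T' p v') v' := h₀
    by_contra hv
    rcases key p v with ⟨s, i, h1, h2, h3⟩ | ⟨r, h1, h2⟩ <;>
      rcases key p v' with ⟨s', i', h1', h2', h3'⟩ | ⟨r', h1', h2'⟩
    · rw [h1] at h1'
      rw [Sum.inl_injective h1'] at h2
      rw [h3, h3'] at h
      exact hv (hT.sdis _ _ _ _ _ (Or.inl h2) (Or.inl h2') h)
    · rw [h3, h2'] at h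
      rcases hsym v' r' with ⟨h4, h5⟩ | ⟨h4, h5⟩
      · rw [h1] at h1'
        rw [h5] at h
        exact hv (hT.sdis _ _ _ _ _ (Or.inl h2) (Or.inr ⟨(sig1 _ _ _).1 h1', h4⟩) h)
      · apply hwild p v' r' h1' h4
        rw [← h, h1]
        exact hreal _ _ _ h2
    · rw [h3', h2] at h
      rcases hsym v r with ⟨h4, h5⟩ | ⟨h4, h5⟩
      · rw [h1'] at h1
        rw [h5] at h
        exact hv (hT.sdis _ _ _ _ _ (Or.inr ⟨(sig1 _ _ _).1 h1, h4⟩) (Or.inl h2') h)
      · apply hwild p v r h1 h4
        rw [h, h1']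
        exact hreal _ _ _ h2'
    · rw [h2, h2'] at h
      rcases hsym v r with ⟨h4, h5⟩ | ⟨h4, h5⟩ <;>
        rcases hsym v' r' with ⟨h4', h5'⟩ | ⟨h4', h5'⟩
      · rw [h5, h5'] at h
        rcases p with s | x
        · exact hv (hT.sdis _ _ _ _ _ (Or.inr ⟨(sig1 _ _ _).1 h1, h4⟩)
            (Or.inr ⟨(sig1 _ _ _).1 h1', h4'⟩) h)
        · have h6 := (sig2 _ _ _).1 h1
          have h7 := (sig2 _ _ _).1 h1'
          rw [h6, h7] at h
          exact hv (hA _ h)
      · apply hwild p v' r' h1' h4'
        rw [← h, h5]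
        exact htyp p v r h1 h4
      · apply hwild p v r h1 h4
        rw [h, h5']
        exact htyp p v' r' h1' h4'
      · refine f3 ((f v).symm r) ((f v').symm r') v v' p hv h5 h5' h ?_ ?_
        · rw [hsg]
          exact h1
        · rw [hsg]
          exact h1'
  · intro v p p' h₀
    have h : T' p v = T' p' v := h₀
    rcases key p v with ⟨s, i, h1, h2, h3⟩ | ⟨r, h1, h2⟩ <;>
      rcases key p' v with ⟨s', i', h1', h2', h3'⟩ | ⟨r', h1', h2'⟩
    · rw [h1, h1']
      congr 1
      apply hT.cdis v
      rw [h2, h2', ← h3, ← h3', h]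
    · exfalso
      apply hT.row _ _ _ h2
      rw [← h3, h, h2']
      exact hcellM _ _
    · exfalso
      apply hT.row _ _ _ h2'
      rw [← h3', ← h, h2]
      exact hcellM _ _
    · have h3 : (f v).symm r = (f v).symm r' := by
        apply Subtype.ext
        change cell v r = cell v r'
        rw [← h2, ← h2', h]
      have h4 := (f v).symm.injective h3
      rw [h4, h1'] at h1
      exact (Option.some.inj h1).symm

end Pool.Agent.CG61
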