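import Pool.Agent.CG61.Rows

set_option autoImplicit false
set_option linter.unusedSectionVars false

/-!
# The interface with a family of sections only
-/

open Finset

namespace Pool.Agent.CG61

open Pool.Agent.Rl45 Pool.Agent.V3R

variable {m n k : ℕ}

/-- a family of sections on a set of rows -/
theorem secs_of_fam {g N : ℕ} (A : Fin m → Fin n → Fin k) (M Q : Finset (Fin m)) (hQ : Q ⊆ M)
    (Ty : Fin n → Finset (Fin k)) (e : Fin g → Fin m) (he : Function.Injective e)
    (hQe : ∀ i, e i ∉ Q → e i ∉ M)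
    {T : Fin N → Fin n → Rw g n}
    (hce : ∀ s v, (T s v, v) ∈ cel (univ.filter fun i => e i ∈ Q))
    (hri : ∀ s, Function.Injective (T s))
    (hsi : ∀ s v v', (ext fun i => A (e i)) (T s v) v = (ext fun i => A (e i)) (T s v') v' →
      v = v')
    (hdi : ∀ v s s', T s v = T s' v → s = s') :
    ∃ T' : Fin N → Fin n → Fin m ⊕ Fin m, Secs A M Q Ty T' := by
  classical
  refine ⟨fun s v => match T s v with
    | Sum.inl i => Sum.inl (e i)
    | Sum.inr p => Sum.inr (e p.1), ?_⟩
  have hcel : ∀ s v, (∃ i, T s v = Sum.inl i ∧ e i ∉ Q) ∨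
      ∃ i, T s v = Sum.inr (i, v) ∧ e i ∈ Q := by
    intro s v
    have h1 : (T s v, v) ∈ cel (univ.filter fun i => e i ∈ Q) := hce s v
    rcases h2 : T s v with i | p
    · left
      rw [h2, mem_cel_inl, mem_filter] at h1
      exact ⟨i, rfl, fun h3 => h1 ⟨mem_univ _, h3⟩⟩
    · right
      rw [h2, mem_cel_inr, mem_filter] at h1
      exact ⟨p.1, congrArg Sum.inr (Prod.ext rfl h1.2), h1.1.2⟩
  have hl : ∀ s v i, (match T s v with
      | Sum.inl i => (Sum.inl (e i) : Fin m ⊕ Fin m)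
      | Sum.inr p => Sum.inr (e p.1)) = Sum.inl i → ∃ x, T s v = Sum.inl x ∧ e x = i := by
    intro s v i h
    rcases h2 : T s v with x | p
    · rw [h2] at h
      exact ⟨x, rfl, Sum.inl_injective h⟩
    · rw [h2] at h
      exact absurd h Sum.inr_ne_inl
  have hr : ∀ s v i, (match T s v with
      | Sum.inl i => (Sum.inl (e i) : Fin m ⊕ Fin m)
      | Sum.inr p => Sum.inr (e p.1)) = Sum.inr i → ∃ x, T s v = Sum.inr (x, v) ∧ e x = i := by
    intro s v i h
    rcases hcel s v with ⟨x, h1, -⟩ | ⟨x, h1, -⟩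
    · rw [h1] at h
      exact absurd h Sum.inl_ne_inr
    · rw [h1] at h
      exact ⟨x, h1, Sum.inr_injective h⟩
  have hsy : ∀ s v i, ((match T s v with
      | Sum.inl i => (Sum.inl (e i) : Fin m ⊕ Fin m)
      | Sum.inr p => Sum.inr (e p.1)) = Sum.inl i ∨ (match T s v with
      | Sum.inl i => (Sum.inl (e i) : Fin m ⊕ Fin m)
      | Sum.inr p => Sum.inr (e p.1)) = Sum.inr i ∧ A i v ∈ Ty v) →
      (ext fun i => A (e i)) (T s v) v = A i v := by
    intro s v i h
    rcases h with h | ⟨h, -⟩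
    · obtain ⟨x, h1, h2⟩ := hl s v i h
      rw [h1, ← h2]
      rfl
    · obtain ⟨x, h1, h2⟩ := hr s v i h
      rw [h1, ← h2]
      rfl
  refine ⟨?_, ?_, ?_, ?_, ?_⟩
  · intro s v i h
    obtain ⟨x, h1, h2⟩ := hl s v i h
    rcases hcel s v with ⟨y, h3, h4⟩ | ⟨y, h3, -⟩
    · rw [h1] at h3
      rw [← h2, Sum.inl_injective h3]
      exact hQe _ h4
    · rw [h1] at h3
      exact absurd h3 Sum.inl_ne_inr
  · intro s v i h
    obtain ⟨x, h1, h2⟩ := hr s v i h
    rcases hcel s v with ⟨y, h3, -⟩ | ⟨y, h3, h4⟩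
    · rw [h1] at h3
      exact absurd h3 Sum.inr_ne_inl
    · rw [h1] at h3
      rw [← h2, (Prod.mk.inj (Sum.inr_injective h3)).1]
      exact h4
  · intro s v v' i h h'
    obtain ⟨x, h1, h2⟩ := hl s v i h
    obtain ⟨x', h1', h2'⟩ := hl s v' i h'
    apply hri s
    rw [h1, h1', he (h2.trans h2'.symm)]
  · intro v s s' h
    apply hdi v
    rcases hcel s v with ⟨x, h1, -⟩ | ⟨x, h1, -⟩ <;>
      rcases hcel s' v with ⟨x', h1', -⟩ | ⟨x', h1', -⟩
    · rw [h1, h1'] at h ⊢
      rw [he (Sum.inl_injective h)]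
    · rw [h1, h1'] at h
      exact absurd h Sum.inl_ne_inr
    · rw [h1, h1'] at h
      exact absurd h Sum.inr_ne_inl
    · rw [h1, h1'] at h ⊢
      have h2 : x = x' := he (Sum.inr_injective h)
      rw [h2]
  · intro s v v' i i' h h' h''
    apply hsi s
    rw [hsy s v i h, hsy s v' i' h', h'']

/-- Everything except the core. -/
theorem assemble_fam (A : Fin m → Fin n → Fin k) (hA : ∀ i, Function.Injective (A i)) (hn : 0 < n)
    {Λ : ℕ} (hΛ : 102400 * (n + 1) ≤ Λ) (E q : ℕ)
    (hm : 64 * ((Nat.log 2 n + 7) * (n * (80 * n * (Nat.log 2 (n * m ^ 2) + 1)))) +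
      n * Λ + Λ + 320 * q < m)
    (hcore : ∀ (g : ℕ) (B : Fin g → Fin n → Fin k), (∀ i, Function.Injective (B i)) →
      ∀ M' : Finset (Fin g), q < M'.card → ∃ (N : ℕ) (T : Fin N → Fin n → Rw g n),
        g ≤ N + E ∧ (∀ s v, (T s v, v) ∈ cel M') ∧ (∀ s, Function.Injective (T s)) ∧
        (∀ s v v', ext B (T s v) v = ext B (T s v') v' → v = v') ∧
        ∀ v s s', T s v = T s' v → s = s') :
    ∃ T : Fin (m - E) → Fin n → Fin m,
      (∀ s, Function.Injective (T s)) ∧
      (∀ s, Function.Injective (fun j => A (T s j) j)) ∧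
      ∀ j, Function.Injective (fun s => T s j) := by
  classical
  obtain ⟨M, Ty, h1, h2, h3, h4, h5⟩ := exists_class hn A (Λ := Λ) (by omega)
  have hMc : M.card + Mᶜ.card = m := by rw [card_add_card_compl, Fintype.card_fin]
  obtain ⟨f, hf1, hf2⟩ := exists_parts M (fun j => wd A M (Ty j) j) hΛ (by omega) h2
  set Q := part f M 0 with hQ
  have hQM : Q ⊆ M := filter_subset _ _
  have hQc : q < Q.card := by
    have h6 : M.card ≤ 320 * Q.card := hf1 0
    omega
  -- the rows of the core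
  set G := Mᶜ ∪ Q with hG
  obtain ⟨e⟩ : Nonempty (Fin G.card ≃ G) :=
    ⟨(Fintype.equivFinOfCardEq (Fintype.card_coe G)).symm⟩
  have hei : Function.Injective fun i => (e i : Fin m) := fun i i' h =>
    e.injective (Subtype.ext h)
  have hM' : (univ.filter fun i => (e i : Fin m) ∈ Q).card = Q.card := by
    rw [← card_image_of_injective _ hei]
    congr 1
    ext x
    rw [mem_image]
    constructor
    · rintro ⟨i, hi, rfl⟩
      exact (mem_filter.1 hi).2
    · intro hx
      have hxG : x ∈ G := mem_union_right _ hx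
      refine ⟨e.symm ⟨x, hxG⟩, ?_, ?_⟩
      · rw [mem_filter, Equiv.apply_symm_apply]
        exact ⟨mem_univ _, hx⟩
      · simp only [Equiv.apply_symm_apply]
  obtain ⟨N, T, hN, hce, hri, hsi, hdi⟩ := hcore G.card (fun i => A (e i)) (fun i => hA (e i))
    (univ.filter fun i => (e i : Fin m) ∈ Q) (by rw [hM']; exact hQc)
  obtain ⟨T', hT'⟩ := secs_of_fam A M Q hQM Ty (fun i => (e i : Fin m)) hei (by
    intro i hi
    rcases mem_union.1 (e i).2 with h | h
    · exact mem_compl.1 h
    · exact absurd h hi) hce hri hsi hdi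
  obtain ⟨T'', g1, g2, g3⟩ := finish A hA hn M Q hQM Ty h1 h3 h4 (by
    intro j
    have h6 : wd A M (Ty j) j ∩ Q = part f (wd A M (Ty j) j) 0 := by
      ext x
      simp only [hQ, part, mem_inter, mem_filter]
      constructor
      · rintro ⟨h7, -, h8⟩
        exact ⟨h7, h8⟩
      · rintro ⟨h7, h8⟩
        exact ⟨h7, (mem_filter.1 h7).1, h8⟩
    rw [h6]
    exact hf2 j 0) hT'
  -- the number of sections
  have hcard : m - E ≤ Fintype.card (Fin N ⊕ {i // i ∈ M \ Q}) := by
    rw [Fintype.card_sum, Fintype.card_fin, Fintype.card_coe, card_sdiff_of_subset hQM]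
    have h6 : G.card = Mᶜ.card + Q.card := by
      rw [hG, card_union_of_disjoint]
      rw [disjoint_left]
      intro x hx hx'
      exact mem_compl.1 hx (hQM hx')
    have h7 := card_le_card hQM
    omega
  let φ : Fin (m - E) → Fin N ⊕ {i // i ∈ M \ Q} := fun s =>
    (Fintype.equivFin _).symm (Fin.castLE hcard s)
  have hφ : Function.Injective φ := fun s s' h =>
    Fin.castLE_injective hcard ((Equiv.injective _) h)
  exact ⟨fun s => T'' (φ s), fun s => g1 _, fun s => g2 _, fun j s s' h => hφ (g3 j h)⟩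

end Pool.Agent.CG61
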