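import Pool.Agent.APL86.LLL

set_option autoImplicit false
set_option linter.unusedSectionVars false

/-!
# Random class preserving permutations

An event prescribes in some columns one value of the permutation of that column.
-/

open Finset

namespace Pool.Agent.CG61

open Pool.Agent.APL86

variable {R Y : Type*} [Fintype R] [DecidableEq R] [DecidableEq Y] {n : ℕ}

/-- the rows in the class of the cell `(i, j)` -/
def kl (K : R → Fin n → Y) (i : R) (j : Fin n) : Finset R := univ.filter fun r => K r j = K i j

omit [DecidableEq R] in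
theorem mem_kl {K : R → Fin n → Y} {i r : R} {j : Fin n} : r ∈ kl K i j ↔ K r j = K i j := by
  simp [kl]

omit [DecidableEq R] in
theorem kl_congr {K : R → Fin n → Y} {i r : R} {j : Fin n} (h : K r j = K i j) :
    kl K r j = kl K i j := by
  ext x
  rw [mem_kl, mem_kl, h]

omit [DecidableEq R] in
theorem kl_pos (K : R → Fin n → Y) (i : R) (j : Fin n) : 0 < (kl K i j).card :=
  card_pos.2 ⟨i, mem_kl.2 rfl⟩

/-- events: in the column `j` the value at `i` is `r` if `e j = some (i, r)` -/
abbrev Evt (R : Type*) (n : ℕ) := Fin n → Option (R × R)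

/-- class preserving families of permutations -/
def confs (K : R → Fin n → Y) : Finset (Fin n → Equiv.Perm R) :=
  univ.filter fun f => ∀ j i, K (f j i) j = K i j

theorem mem_confs {K : R → Fin n → Y} {f : Fin n → Equiv.Perm R} :
    f ∈ confs K ↔ ∀ j i, K (f j i) j = K i j := by
  simp [confs]

/-- the event as a set -/
def BE (e : Evt R n) : Finset (Fin n → Equiv.Perm R) :=
  univ.filter fun f => ∀ j i r, e j = some (i, r) → f j i = r

theorem mem_BE {e : Evt R n} {f : Fin n → Equiv.Perm R} :
    f ∈ BE e ↔ ∀ j i r, e j = some (i, r) → f j i = r := by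
  simp [BE]

/-- the event respects the classes -/
def Valid (K : R → Fin n → Y) (e : Evt R n) : Prop :=
  ∀ j i r, e j = some (i, r) → K r j = K i j

/-- the alternatives in the column `j` -/
def alt (K : R → Fin n → Y) (e : Evt R n) (j : Fin n) : Finset (Option R) :=
  match e j with
  | none => {none}
  | some (i, _) => (kl K i j).image some

/-- the probability of the event -/
def prb (K : R → Fin n → Y) (e : Evt R n) : ℚ := ∏ j, 1 / ((alt K e j).card : ℚ)

theorem prb_nonneg (K : R → Fin n → Y) (e : Evt R n) : 0 ≤ prb K e :=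
  prod_nonneg fun _ _ => by positivity

/-- two events share a cell or a slot -/
def Touch (e e' : Evt R n) : Prop :=
  ∃ j i r i' r', e j = some (i, r) ∧ e' j = some (i', r') ∧ (i = i' ∨ r = r')

/-- the switched family -/
def swt (e : Evt R n) (f : Fin n → Equiv.Perm R) (x : Fin n → Option R) :
    Fin n → Equiv.Perm R :=
  fun j => match e j, x j with
    | some (_, r), some y => Equiv.swap r y * f j
    | _, _ => f j

theorem swt_none {e : Evt R n} {f : Fin n → Equiv.Perm R} {x : Fin n → Option R} {j : Fin n}
    (h : e j = none) : swt e f x j = f j := by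
  unfold swt
  rw [h]

theorem swt_some {e : Evt R n} {f : Fin n → Equiv.Perm R} {x : Fin n → Option R} {j : Fin n}
    {i r y : R} (h : e j = some (i, r)) (hx : x j = some y) :
    swt e f x j = Equiv.swap r y * f j := by
  unfold swt
  rw [h, hx]

theorem mem_alt_none {K : R → Fin n → Y} {e : Evt R n} {j : Fin n} {o : Option R}
    (h : e j = none) (ho : o ∈ alt K e j) : o = none := by
  unfold alt at ho
  rw [h] at ho
  exact mem_singleton.1 ho

theorem mem_alt_some {K : R → Fin n → Y} {e : Evt R n} {j : Fin n} {i r : R} {o : Option R}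
    (h : e j = some (i, r)) (ho : o ∈ alt K e j) : ∃ y, o = some y ∧ K y j = K i j := by
  unfold alt at ho
  rw [h] at ho
  obtain ⟨y, hy, rfl⟩ := mem_image.1 ho
  exact ⟨y, rfl, mem_kl.1 hy⟩

theorem swap_class {K : R → Fin n → Y} {j : Fin n} {r y z : R} (h : K y j = K r j) :
    K (Equiv.swap r y z) j = K z j := by
  by_cases h1 : z = r
  · rw [h1, Equiv.swap_apply_left, h]
  · by_cases h2 : z = y
    · rw [h2, Equiv.swap_apply_right, h]
    · rw [Equiv.swap_apply_of_ne_of_ne h1 h2]

theorem lop (K : R → Fin n → Y) (e : Evt R n) (he : Valid K e) (T : Finset (Evt R n))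
    (hT : ∀ t ∈ T, ¬ Touch e t) :
    ((av (confs K) BE T ∩ BE e).card : ℚ) ≤ prb K e * (av (confs K) BE T).card := by
  classical
  have hpos : ∀ j, 0 < (alt K e j).card := by
    intro j
    unfold alt
    rcases h : e j with _ | ⟨i, r⟩
    · simp
    · rw [card_image_of_injective _ (Option.some_injective _)]
      exact kl_pos K i j
  have h1 : ((av (confs K) BE T ∩ BE e) ×ˢ Fintype.piFinset (alt K e)).card ≤
      (av (confs K) BE T).card := by
    refine card_le_card_of_injOn (fun z => swt e z.1 z.2) ?_ ?_
    · rintro ⟨f, x⟩ hz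
      rw [mem_coe, mem_product, mem_inter, mem_av, mem_BE, Fintype.mem_piFinset] at hz
      obtain ⟨⟨⟨hf, hav⟩, hb⟩, hx⟩ := hz
      rw [mem_confs] at hf
      dsimp only at hf hav hb hx
      change swt e f x ∈ _
      rw [mem_coe, mem_av, mem_confs]
      refine ⟨fun j i => ?_, fun t ht hcon => hav t ht ?_⟩
      · rcases h : e j with _ | ⟨i₀, r⟩
        · rw [swt_none h]
          exact hf j i
        · obtain ⟨y, hy, hy'⟩ := mem_alt_some h (hx j)
          rw [swt_some h hy, Equiv.Perm.mul_apply, swap_class (hy'.trans (he j i₀ r h).symm)]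
          exact hf j i
      · rw [mem_BE] at hcon ⊢
        intro j i' r' hj
        have h3 := hcon j i' r' hj
        rcases h : e j with _ | ⟨i₀, r⟩
        · rw [swt_none h] at h3
          exact h3
        · obtain ⟨y, hy, hy'⟩ := mem_alt_some h (hx j)
          rw [swt_some h hy, Equiv.Perm.mul_apply] at h3
          have h4 : f j i₀ = r := hb j i₀ r h
          have hne1 : i₀ ≠ i' := fun h5 => hT t ht ⟨j, i₀, r, i', r', h, hj, Or.inl h5⟩
          have hne2 : r ≠ r' := fun h5 => hT t ht ⟨j, i₀, r, i', r', h, hj, Or.inr h5⟩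
          have h5 : f j i' = Equiv.swap r y r' := by
            rw [← h3, Equiv.swap_apply_self]
          by_cases h6 : r' = y
          · rw [h6, Equiv.swap_apply_right] at h5
            exact absurd ((f j).injective (h4.trans h5.symm)) hne1
          · rw [Equiv.swap_apply_of_ne_of_ne hne2.symm h6] at h5
            exact h5
    · rintro ⟨f, x⟩ hz ⟨f', x'⟩ hz' heq
      rw [mem_coe, mem_product, mem_inter, mem_BE, Fintype.mem_piFinset] at hz hz'
      dsimp only at hz hz' heq
      have hj : ∀ j, f j = f' j ∧ x j = x' j := by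
        intro j
        have h2 : swt e f x j = swt e f' x' j := congrFun heq j
        rcases h : e j with _ | ⟨i₀, r⟩
        · rw [swt_none h, swt_none h] at h2
          exact ⟨h2, (mem_alt_none h (hz.2 j)).trans (mem_alt_none h (hz'.2 j)).symm⟩
        · obtain ⟨y, hy, -⟩ := mem_alt_some h (hz.2 j)
          obtain ⟨y', hy', -⟩ := mem_alt_some h (hz'.2 j)
          rw [swt_some h hy, swt_some h hy'] at h2
          have h3 : f j i₀ = r := hz.1.2 j i₀ r h
          have h4 : f' j i₀ = r := hz'.1.2 j i₀ r h
          have h5 : y = y' := by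
            have h6 := congrArg (fun g : Equiv.Perm R => g i₀) h2
            simp only [Equiv.Perm.mul_apply, h3, h4, Equiv.swap_apply_left] at h6
            exact h6
          subst h5
          exact ⟨mul_left_cancel h2, hy.trans hy'.symm⟩
      exact Prod.ext (funext fun j => (hj j).1) (funext fun j => (hj j).2)
  rw [card_product, Fintype.card_piFinset] at h1
  have h2 : (0 : ℚ) < ∏ j, ((alt K e j).card : ℚ) :=
    prod_pos fun j _ => by exact_mod_cast hpos j
  have h3 : prb K e = 1 / ∏ j, ((alt K e j).card : ℚ) := by
    unfold prb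
    rw [prod_div_distrib, prod_const_one]
  have h4 : ((av (confs K) BE T ∩ BE e).card : ℚ) * ∏ j, ((alt K e j).card : ℚ) ≤
      (av (confs K) BE T).card := by
    exact_mod_cast h1
  rw [h3, one_div, inv_mul_eq_div, le_div_iff₀ h2]
  exact h4

/-- an event in one column -/
def sgl (j : Fin n) (i r : R) : Evt R n := fun l => if l = j then some (i, r) else none

/-- an event in two columns -/
def dbl (j : Fin n) (i r : R) (k : Fin n) (i' q : R) : Evt R n :=
  fun l => if l = j then some (i, r) else if l = k then some (i', q) else none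

omit [Fintype R] [DecidableEq R] in
theorem dbl_comm {j k : Fin n} (h : j ≠ k) (i r i' q : R) :
    dbl j i r k i' q = dbl k i' q j i r := by
  funext l
  unfold dbl
  by_cases h1 : l = j
  · rw [if_pos h1, if_neg (fun h2 => h (h1.symm.trans h2)), if_pos h1]
  · rw [if_neg h1, if_neg h1]

theorem prb_sgl (K : R → Fin n → Y) (j : Fin n) (i r : R) :
    prb K (sgl j i r) = 1 / ((kl K i j).card : ℚ) := by
  unfold prb
  rw [← mul_prod_erase _ _ (mem_univ j)]
  have h1 : ∏ x ∈ univ.erase j, (1 : ℚ) / ((alt K (sgl j i r) x).card : ℚ) = 1 := by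
    refine prod_eq_one fun x hx => ?_
    have : alt K (sgl j i r) x = {none} := by
      unfold alt sgl
      rw [if_neg (ne_of_mem_erase hx)]
    rw [this, card_singleton]
    norm_num
  have h2 : alt K (sgl j i r) j = (kl K i j).image some := by
    unfold alt sgl
    rw [if_pos rfl]
  rw [h1, mul_one, h2, card_image_of_injective _ (Option.some_injective _)]

theorem prb_dbl (K : R → Fin n → Y) {j k : Fin n} (hjk : j ≠ k) (i r i' q : R) :
    prb K (dbl j i r k i' q) = 1 / ((kl K i j).card : ℚ) * (1 / ((kl K i' k).card : ℚ)) := by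
  unfold prb
  rw [← mul_prod_erase _ _ (mem_univ j),
    ← mul_prod_erase _ _ (mem_erase.2 ⟨hjk.symm, mem_univ k⟩)]
  have h1 : ∏ x ∈ (univ.erase j).erase k,
      (1 : ℚ) / ((alt K (dbl j i r k i' q) x).card : ℚ) = 1 := by
    refine prod_eq_one fun x hx => ?_
    have : alt K (dbl j i r k i' q) x = {none} := by
      unfold alt dbl
      rw [if_neg (ne_of_mem_erase (mem_of_mem_erase hx)), if_neg (ne_of_mem_erase hx)]
    rw [this, card_singleton]
    norm_num
  have h2 : alt K (dbl j i r k i' q) j = (kl K i j).image some := by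
    unfold alt dbl
    rw [if_pos rfl]
  have h3 : alt K (dbl j i r k i' q) k = (kl K i' k).image some := by
    unfold alt dbl
    rw [if_neg hjk.symm, if_pos rfl]
  rw [h1, mul_one, h2, h3, card_image_of_injective _ (Option.some_injective _),
    card_image_of_injective _ (Option.some_injective _)]

end Pool.Agent.CG61
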