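import Mathlib

set_option autoImplicit false

/-!
# Equitable partitions

Finitely many sets can be split into `B` parts in such a way that every one of them is split
almost equally.
-/

open Finset

namespace Pool.Agent.CG61

variable {ι J : Type*} [DecidableEq ι] [Fintype J]

/-- the elements of colour `b` in `R` -/
def part {B : ℕ} (f : ι → Fin B) (R : Finset ι) (b : Fin B) : Finset ι :=
  R.filter fun i => f i = b

omit [DecidableEq ι] in
theorem sum_part {B : ℕ} (f : ι → Fin B) (R : Finset ι) :
    ∑ b, (part f R b).card = R.card :=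
  (card_eq_sum_card_fiberwise (f := f) (t := univ) fun _ _ => mem_univ _).symm

theorem exists_colour (R : J → Finset ι) (w : J → ℚ) (hw : ∀ j, 0 ≤ w j) {B : ℕ} (hB : 0 < B)
    (M : Finset ι) :
    ∃ f : ι → Fin B, ∑ j, w j * ∑ b, ((part f (M ∩ R j) b).card : ℚ) ^ 2 ≤
      ∑ j, w j * (((M ∩ R j).card : ℚ) ^ 2 / B + (M ∩ R j).card) := by
  classical
  have hB' : (0 : ℚ) < B := by exact_mod_cast hB
  induction M using Finset.induction_on with
  | empty =>
    refine ⟨fun _ => ⟨0, hB⟩, ?_⟩
    simp [part]
  | insert i M hi ih =>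
    obtain ⟨f, hf⟩ := ih
    obtain ⟨b₀, -, hb₀⟩ : ∃ b₀ ∈ (univ : Finset (Fin B)),
        ∑ j, (if i ∈ R j then w j * (2 * ((part f (M ∩ R j) b₀).card : ℚ) + 1) else 0) ≤
        ∑ j, (if i ∈ R j then w j * (2 * ((M ∩ R j).card : ℚ) / B + 1) else 0) := by
      apply exists_le_of_sum_le (univ_nonempty_iff.2 ⟨⟨0, hB⟩⟩)
      rw [sum_comm, sum_const, card_univ, Fintype.card_fin, nsmul_eq_mul, mul_sum]
      refine sum_le_sum fun j _ => ?_
      by_cases h : i ∈ R j
      · simp only [if_pos h]
        rw [← mul_sum, sum_add_distrib, ← mul_sum, sum_const, card_univ, Fintype.card_fin,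
          nsmul_eq_mul, ← Nat.cast_sum, sum_part]
        refine le_of_eq ?_
        field_simp
      · simp only [if_neg h]
        simp
    have hne : ∀ x ∈ M, Function.update f i b₀ x = f x := by
      intro x hx
      exact Function.update_of_ne (by rintro rfl; exact hi hx) _ _
    refine ⟨Function.update f i b₀, ?_⟩
    have hq : ∀ j b, ((part (Function.update f i b₀) (insert i M ∩ R j) b).card : ℚ) =
        (part f (M ∩ R j) b).card + if b = b₀ ∧ i ∈ R j then 1 else 0 := by
      intro j b
      by_cases h : i ∈ R j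
      · by_cases hb : b = b₀
        · have h1 : part (Function.update f i b₀) (insert i M ∩ R j) b =
              insert i (part f (M ∩ R j) b) := by
            ext x
            simp only [part, mem_filter, mem_inter, mem_insert]
            constructor
            · rintro ⟨⟨h2 | h2, h3⟩, h4⟩
              · exact Or.inl h2
              · exact Or.inr ⟨⟨h2, h3⟩, (hne x h2) ▸ h4⟩
            · rintro (h2 | ⟨⟨h2, h3⟩, h4⟩)
              · subst h2
                exact ⟨⟨Or.inl rfl, h⟩, by rw [Function.update_self, hb]⟩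
              · exact ⟨⟨Or.inr h2, h3⟩, (hne x h2).trans h4⟩
          rw [h1, card_insert_of_notMem, if_pos ⟨hb, h⟩]
          · push_cast
            ring
          · intro h2
            exact hi (mem_inter.1 (mem_filter.1 h2).1).1
        · have h1 : part (Function.update f i b₀) (insert i M ∩ R j) b = part f (M ∩ R j) b := by
            ext x
            simp only [part, mem_filter, mem_inter, mem_insert]
            constructor
            · rintro ⟨⟨h2 | h2, h3⟩, h4⟩
              · subst h2
                rw [Function.update_self] at h4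
                exact absurd h4.symm hb
              · exact ⟨⟨h2, h3⟩, (hne x h2) ▸ h4⟩
            · rintro ⟨⟨h2, h3⟩, h4⟩
              exact ⟨⟨Or.inr h2, h3⟩, (hne x h2).trans h4⟩
          rw [h1, if_neg (by tauto), add_zero]
      · have h1 : part (Function.update f i b₀) (insert i M ∩ R j) b = part f (M ∩ R j) b := by
          ext x
          simp only [part, mem_filter, mem_inter, mem_insert]
          constructor
          · rintro ⟨⟨h2 | h2, h3⟩, h4⟩
            · exact absurd (h2 ▸ h3) h
            · exact ⟨⟨h2, h3⟩, (hne x h2) ▸ h4⟩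
          · rintro ⟨⟨h2, h3⟩, h4⟩
            exact ⟨⟨Or.inr h2, h3⟩, (hne x h2).trans h4⟩
        rw [h1, if_neg (by tauto), add_zero]
    have hl : ∀ j, ∑ b, ((part (Function.update f i b₀) (insert i M ∩ R j) b).card : ℚ) ^ 2 =
        ∑ b, ((part f (M ∩ R j) b).card : ℚ) ^ 2 +
          if i ∈ R j then 2 * ((part f (M ∩ R j) b₀).card : ℚ) + 1 else 0 := by
      intro j
      rw [← add_sum_erase _ _ (mem_univ b₀),
        ← add_sum_erase univ (fun b => ((part f (M ∩ R j) b).card : ℚ) ^ 2) (mem_univ b₀)]
      have h1 : ∑ b ∈ univ.erase b₀,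
          ((part (Function.update f i b₀) (insert i M ∩ R j) b).card : ℚ) ^ 2 =
          ∑ b ∈ univ.erase b₀, ((part f (M ∩ R j) b).card : ℚ) ^ 2 := by
        refine sum_congr rfl fun b hb => ?_
        rw [hq, if_neg (fun h => ne_of_mem_erase hb h.1), add_zero]
      rw [h1, hq]
      by_cases h : i ∈ R j
      · rw [if_pos ⟨rfl, h⟩, if_pos h]
        ring
      · rw [if_neg (by tauto), if_neg h]
        ring
    have hr : ∀ j, ((insert i M ∩ R j).card : ℚ) =
        (M ∩ R j).card + if i ∈ R j then 1 else 0 := by
      intro j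
      by_cases h : i ∈ R j
      · rw [insert_inter_of_mem h, card_insert_of_notMem, if_pos h]
        · push_cast
          ring
        · exact fun h2 => hi (mem_inter.1 h2).1
      · rw [insert_inter_of_notMem h, if_neg h, add_zero]
    calc ∑ j, w j * ∑ b, ((part (Function.update f i b₀) (insert i M ∩ R j) b).card : ℚ) ^ 2
        = ∑ j, w j * ∑ b, ((part f (M ∩ R j) b).card : ℚ) ^ 2 +
          ∑ j, (if i ∈ R j then w j * (2 * ((part f (M ∩ R j) b₀).card : ℚ) + 1) else 0) := by
          rw [← sum_add_distrib]
          refine sum_congr rfl fun j _ => ?_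
          rw [hl]
          split_ifs <;> ring
      _ ≤ ∑ j, w j * (((M ∩ R j).card : ℚ) ^ 2 / B + (M ∩ R j).card) +
          ∑ j, (if i ∈ R j then w j * (2 * ((M ∩ R j).card : ℚ) / B + 1) else 0) :=
          add_le_add hf hb₀
      _ ≤ _ := by
          rw [← sum_add_distrib]
          refine sum_le_sum fun j _ => ?_
          rw [hr]
          by_cases h : i ∈ R j
          · rw [if_pos h, if_pos h]
            have h1 : (0 : ℚ) ≤ w j * (1 / B) := mul_nonneg (hw j) (by positivity)
            have h2 : w j * ((((M ∩ R j).card : ℚ) + 1) ^ 2 / B + ((M ∩ R j).card + 1)) =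
                w j * (((M ∩ R j).card : ℚ) ^ 2 / B + (M ∩ R j).card) +
                  w j * (2 * ((M ∩ R j).card : ℚ) / B + 1) + w j * (1 / B) := by
              ring
            rw [h2]
            linarith
          · rw [if_neg h, if_neg h]
            simp

/-- Every set is split almost equally. -/
theorem exists_split (R : J → Finset ι) {B : ℕ} (hB : 0 < B) {δ : ℚ}
    (hδ : ∑ j, (if R j = ∅ then 0 else 1 / ((R j).card : ℚ)) ≤ δ) :
    ∃ f : ι → Fin B, ∀ j b,
      (((part f (R j) b).card : ℚ) - (R j).card / B) ^ 2 ≤ δ * ((R j).card : ℚ) ^ 2 := by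
  classical
  have hB' : (0 : ℚ) < B := by exact_mod_cast hB
  set w : J → ℚ := fun j => if R j = ∅ then 0 else 1 / ((R j).card : ℚ) ^ 2 with hwd
  have hw : ∀ j, 0 ≤ w j := by
    intro j
    simp only [hwd]
    split_ifs
    · exact le_rfl
    · positivity
  obtain ⟨f, hf⟩ := exists_colour R w hw hB (univ.biUnion R)
  have hin : ∀ j, univ.biUnion R ∩ R j = R j := fun j =>
    inter_eq_right.2 (subset_biUnion_of_mem R (mem_univ j))
  simp only [hin] at hf
  refine ⟨f, fun j b => ?_⟩
  have hsq : ∀ j, ∑ b, (((part f (R j) b).card : ℚ) - (R j).card / B) ^ 2 =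
      ∑ b, ((part f (R j) b).card : ℚ) ^ 2 - ((R j).card : ℚ) ^ 2 / B := by
    intro j
    have h1 : ∀ b, (((part f (R j) b).card : ℚ) - (R j).card / B) ^ 2 =
        ((part f (R j) b).card : ℚ) ^ 2 - 2 * ((R j).card / B) * (part f (R j) b).card +
          ((R j).card / B : ℚ) ^ 2 := fun b => by ring
    simp only [h1]
    rw [sum_add_distrib, sum_sub_distrib, ← mul_sum, ← Nat.cast_sum, sum_part, sum_const,
      card_univ, Fintype.card_fin, nsmul_eq_mul]
    field_simp
    ring
  have hsum : ∑ j, w j * ∑ b, (((part f (R j) b).card : ℚ) - (R j).card / B) ^ 2 ≤ δ := by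
    refine le_trans ?_ hδ
    have h1 : ∑ j, w j * ∑ b, (((part f (R j) b).card : ℚ) - (R j).card / B) ^ 2 =
        ∑ j, w j * ∑ b, ((part f (R j) b).card : ℚ) ^ 2 -
          ∑ j, w j * (((R j).card : ℚ) ^ 2 / B) := by
      rw [← sum_sub_distrib]
      exact sum_congr rfl fun j _ => by rw [hsq]; ring
    have h2 : ∑ j, w j * (((R j).card : ℚ) ^ 2 / B + (R j).card) =
        ∑ j, w j * (((R j).card : ℚ) ^ 2 / B) + ∑ j, w j * ((R j).card : ℚ) := by
      rw [← sum_add_distrib]
      exact sum_congr rfl fun j _ => by ring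
    have h3 : ∑ j, w j * ((R j).card : ℚ) =
        ∑ j, (if R j = ∅ then 0 else 1 / ((R j).card : ℚ)) := by
      refine sum_congr rfl fun j _ => ?_
      simp only [hwd]
      split_ifs with h
      · simp
      · have : (0 : ℚ) < (R j).card := by
          exact_mod_cast card_pos.2 (nonempty_iff_ne_empty.2 h)
        field_simp
    linarith
  by_cases h0 : R j = ∅
  · rw [h0]
    simp [part]
  have hr : (0 : ℚ) < (R j).card := by
    exact_mod_cast card_pos.2 (nonempty_iff_ne_empty.2 h0)
  have h1 : w j * (((part f (R j) b).card : ℚ) - (R j).card / B) ^ 2 ≤ δ := by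
    refine le_trans ?_ hsum
    have h2 : (((part f (R j) b).card : ℚ) - (R j).card / B) ^ 2 ≤
        ∑ b, (((part f (R j) b).card : ℚ) - (R j).card / B) ^ 2 :=
      single_le_sum (f := fun b => (((part f (R j) b).card : ℚ) - (R j).card / B) ^ 2)
        (fun _ _ => sq_nonneg _) (mem_univ b)
    refine (mul_le_mul_of_nonneg_left h2 (hw j)).trans ?_
    exact single_le_sum
      (f := fun j => w j * ∑ b, (((part f (R j) b).card : ℚ) - (R j).card / B) ^ 2)
      (fun j _ => mul_nonneg (hw j) (sum_nonneg fun _ _ => sq_nonneg _)) (mem_univ j)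
  have h2 : w j = 1 / ((R j).card : ℚ) ^ 2 := if_neg h0
  rw [h2, one_div, inv_mul_le_iff₀ (by positivity)] at h1
  linarith

/-- The partition used for the reassignment: `160` parts, each with at least `1 / 320` of the
rows and with at most `1 / 80` of the wild rows of every column. -/
theorem exists_parts {m n Λ : ℕ} (M : Finset (Fin m)) (W : Fin n → Finset (Fin m))
    (hΛ : 102400 * (n + 1) ≤ Λ) (hM : Λ < M.card) (hW : ∀ j, W j = ∅ ∨ Λ < (W j).card) :
    ∃ f : Fin m → Fin 160, (∀ b, M.card ≤ 320 * (part f M b).card) ∧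
      ∀ j b, 80 * (part f (W j) b).card ≤ (W j).card := by
  have hΛ0 : (0 : ℚ) < Λ := by
    have : 0 < Λ := by omega
    exact_mod_cast this
  obtain ⟨f, hf⟩ := exists_split (J := Option (Fin n)) (fun j => j.elim M W) (B := 160)
    (by norm_num) (δ := 1 / 102400) (by
      have h1 : ∀ j : Option (Fin n), (if j.elim M W = ∅ then (0 : ℚ) else
          1 / ((j.elim M W).card : ℚ)) ≤ 1 / Λ := by
        intro j
        split_ifs with h
        · positivity
        · apply one_div_le_one_div_of_le hΛ0
          have h2 : Λ ≤ (j.elim M W).card := by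
            cases j with
            | none => exact hM.le
            | some j =>
              rcases hW j with h3 | h3
              · exact absurd h3 h
              · exact h3.le
          exact_mod_cast h2
      refine (sum_le_sum fun j _ => h1 j).trans ?_
      rw [sum_const, card_univ, Fintype.card_option, Fintype.card_fin, nsmul_eq_mul]
      rw [mul_one_div, div_le_div_iff₀ hΛ0 (by norm_num)]
      have h2 : ((102400 * (n + 1) : ℕ) : ℚ) ≤ (Λ : ℚ) := by exact_mod_cast hΛ
      push_cast at h2 ⊢
      linarith)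
  have key : ∀ (r q : ℚ), 0 ≤ r → (q - r / 160) ^ 2 ≤ 1 / 102400 * r ^ 2 →
      q ≤ r / 80 ∧ r ≤ 320 * q := by
    intro r q hr hq
    have h1 : (q - r / 160) ^ 2 ≤ (r / 320) ^ 2 := by
      refine hq.trans (le_of_eq ?_)
      ring
    have h2 := abs_le_of_sq_le_sq' h1 (by positivity)
    constructor
    · linarith [h2.2]
    · linarith [h2.1]
  refine ⟨f, fun b => ?_, fun j b => ?_⟩
  · have h1 := (key (M.card : ℚ) ((part f M b).card : ℚ) (Nat.cast_nonneg _)
      (by simpa using hf none b)).2
    exact_mod_cast h1
  · have h1 := (key ((W j).card : ℚ) ((part f (W j) b).card : ℚ) (Nat.cast_nonneg _)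
      (by simpa using hf (some j) b)).1
    have h2 : (80 : ℚ) * (part f (W j) b).card ≤ (W j).card := by linarith
    exact_mod_cast h2

end Pool.Agent.CG61
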