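import Pool.Agent.CG61.Perm

set_option autoImplicit false
set_option linter.unusedSectionVars false

/-!
# The sums of the probabilities
-/

open Finset

namespace Pool.Agent.CG61

variable {R Y P : Type*} [Fintype R] [DecidableEq R] [DecidableEq Y] {n : ℕ}

/-- a sum over a set of images is at most the sum over the indices -/
theorem sum_le_index {ι κ : Type*} [DecidableEq κ] (X : Finset κ) (I : Finset ι) (g : ι → κ)
    (w : κ → ℚ) (hw : ∀ t, 0 ≤ w t) (h : ∀ t ∈ X, ∃ x ∈ I, g x = t) :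
    ∑ t ∈ X, w t ≤ ∑ x ∈ I, w (g x) := by
  classical
  rcases X.eq_empty_or_nonempty with rfl | ⟨t₀, ht₀⟩
  · rw [sum_empty]
    exact sum_nonneg fun _ _ => hw _
  have : Nonempty ι := ⟨(h t₀ ht₀).choose⟩
  choose! s hs using h
  calc ∑ t ∈ X, w t = ∑ t ∈ X, w (g (s t)) := sum_congr rfl fun t ht => by rw [(hs t ht).2]
    _ = ∑ x ∈ X.image s, w (g x) := by
        rw [sum_image]
        intro a ha b hb hab
        rw [← (hs a ha).2, ← (hs b hb).2, hab]
    _ ≤ ∑ x ∈ I, w (g x) := by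
        refine sum_le_sum_of_subset_of_nonneg ?_ fun _ _ _ => hw _
        intro x hx
        obtain ⟨t, ht, rfl⟩ := mem_image.1 hx
        exact (hs t ht).1

/-- two slots lie in the same section -/
def Mate (sig : Fin n → R → Option P) (j : Fin n) (r : R) (k : Fin n) (q : R) : Prop :=
  ∃ p, sig j r = some p ∧ sig k q = some p

theorem Mate.unique {sig : Fin n → R → Option P}
    (hinj : ∀ j r r' p, sig j r = some p → sig j r' = some p → r = r') {j k : Fin n}
    {r q q' : R} (h : Mate sig j r k q) (h' : Mate sig j r k q') : q = q' := by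
  obtain ⟨p, h1, h2⟩ := h
  obtain ⟨p', h3, h4⟩ := h'
  rw [h1] at h3
  rw [← Option.some.inj h3] at h4
  exact hinj k q q' p h2 h4

theorem Mate.symm {sig : Fin n → R → Option P} {j k : Fin n} {r q : R}
    (h : Mate sig j r k q) : Mate sig k q j r := by
  obtain ⟨p, h1, h2⟩ := h
  exact ⟨p, h2, h1⟩

open Classical in
/-- the double events given by the relation `ρ` between cells -/
noncomputable def prs (K : R → Fin n → Y) (sig : Fin n → R → Option P)
    (ρ : Fin n → R → Fin n → R → Prop) : Finset (Evt R n) :=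
  univ.filter fun t => ∃ j i r k i' q, j ≠ k ∧ ρ j i k i' ∧ K r j = K i j ∧ K q k = K i' k ∧
    Mate sig j r k q ∧ t = dbl j i r k i' q

theorem mem_prs {K : R → Fin n → Y} {sig : Fin n → R → Option P}
    {ρ : Fin n → R → Fin n → R → Prop} {t : Evt R n} :
    t ∈ prs K sig ρ ↔ ∃ j i r k i' q, j ≠ k ∧ ρ j i k i' ∧ K r j = K i j ∧ K q k = K i' k ∧
      Mate sig j r k q ∧ t = dbl j i r k i' q := by
  simp [prs]

/-- representation with the given column first -/
theorem prs_rep {K : R → Fin n → Y} {sig : Fin n → R → Option P}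
    {ρ : Fin n → R → Fin n → R → Prop} (hsym : ∀ j i k i', ρ j i k i' → ρ k i' j i)
    {t : Evt R n} (ht : t ∈ prs K sig ρ) {j : Fin n} {i r : R} (hj : t j = some (i, r)) :
    ∃ k i' q, j ≠ k ∧ ρ j i k i' ∧ K r j = K i j ∧ K q k = K i' k ∧
      Mate sig j r k q ∧ t = dbl j i r k i' q := by
  obtain ⟨j', i₁, r₁, k', i₂, r₂, h1, h2, h3, h4, h5, h6⟩ := mem_prs.1 ht
  have hj' := hj
  rw [h6] at hj'
  unfold dbl at hj'
  by_cases e1 : j = j'
  · rw [if_pos e1] at hj'
    have e2 := Prod.mk.inj (Option.some.inj hj')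
    obtain ⟨e3, e4⟩ := e2
    subst e1 e3 e4
    exact ⟨k', i₂, r₂, h1, h2, h3, h4, h5, h6⟩
  · rw [if_neg e1] at hj'
    by_cases e5 : j = k'
    · rw [if_pos e5] at hj'
      obtain ⟨e3, e4⟩ := Prod.mk.inj (Option.some.inj hj')
      subst e5 e3 e4
      exact ⟨j', i₁, r₁, h1.symm, hsym _ _ _ _ h2, h4, h3, h5.symm, h6.trans (dbl_comm h1 _ _ _ _)⟩
    · rw [if_neg e5] at hj'
      exact absurd hj' (by simp)

section Pairs

variable {K : R → Fin n → Y} {sig : Fin n → R → Option P} {ρ : Fin n → R → Fin n → R → Prop}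
  {β : R → Fin n → ℚ} {b : ℚ}

open Classical in
/-- the inner sums -/
theorem inner_le (hinj : ∀ j r r' p, sig j r = some p → sig j r' = some p → r = r')
    (hβ0 : ∀ i k, 0 ≤ β i k)
    (hβ : ∀ j i k q, j ≠ k → ∀ Z : Finset R, (∀ i' ∈ Z, K i' k = K q k ∧ ρ j i k i') →
      ∑ i' ∈ Z, 1 / ((kl K i' k).card : ℚ) ≤ β i k)
    (j : Fin n) (i r : R) (k : Fin n) (hjk : j ≠ k) (c : ℚ) (hc : 0 ≤ c) :
    ∑ q : R, ∑ i' : R, (if ρ j i k i' ∧ K q k = K i' k ∧ Mate sig j r k q then
      c * (1 / ((kl K i' k).card : ℚ)) else 0) ≤ c * β i k := by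
  by_cases hm : ∃ q, Mate sig j r k q
  · obtain ⟨q₀, hq₀⟩ := hm
    rw [sum_eq_single q₀]
    · have h1 : ∑ i' : R, (if ρ j i k i' ∧ K q₀ k = K i' k ∧ Mate sig j r k q₀ then
          c * (1 / ((kl K i' k).card : ℚ)) else 0) =
          c * ∑ i' ∈ (kl K q₀ k).filter (fun i' => ρ j i k i'),
            1 / ((kl K i' k).card : ℚ) := by
        rw [mul_sum, ← sum_filter]
        refine sum_congr ?_ fun _ _ => rfl
        ext i'
        simp only [mem_filter, mem_univ, true_and, mem_kl]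
        constructor
        · rintro ⟨h1, h2, -⟩
          exact ⟨h2.symm, h1⟩
        · rintro ⟨h1, h2⟩
          exact ⟨h2, h1.symm, hq₀⟩
      rw [h1]
      refine mul_le_mul_of_nonneg_left (hβ j i k q₀ hjk _ fun i' hi' => ?_) hc
      rw [mem_filter, mem_kl] at hi'
      exact hi'
    · intro q _ hq
      refine sum_eq_zero fun i' _ => if_neg ?_
      rintro ⟨-, -, h2⟩
      exact hq (h2.unique hinj hq₀)
    · intro h
      exact absurd (mem_univ _) h
  · rw [sum_eq_zero]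
    · exact mul_nonneg hc (hβ0 i k)
    · intro q _
      refine sum_eq_zero fun i' _ => if_neg ?_
      rintro ⟨-, -, h2⟩
      exact hm ⟨q, h2⟩

open Classical in
/-- sum through a cell -/
theorem pair_cell (hinj : ∀ j r r' p, sig j r = some p → sig j r' = some p → r = r')
    (hsym : ∀ j i k i', ρ j i k i' → ρ k i' j i)
    (hβ0 : ∀ i k, 0 ≤ β i k) (hb : ∀ i, ∑ k, β i k ≤ b)
    (hβ : ∀ j i k q, j ≠ k → ∀ Z : Finset R, (∀ i' ∈ Z, K i' k = K q k ∧ ρ j i k i') →
      ∑ i' ∈ Z, 1 / ((kl K i' k).card : ℚ) ≤ β i k)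
    (j : Fin n) (i : R) (X : Finset (Evt R n))
    (hX : ∀ t ∈ X, t ∈ prs K sig ρ ∧ ∃ r, t j = some (i, r)) :
    ∑ t ∈ X, prb K t ≤ b := by
  have hlam : (0 : ℚ) < (kl K i j).card := by exact_mod_cast kl_pos K i j
  refine (sum_le_index _ ((univ : Finset (Fin n × R × R × R)).filter fun x => j ≠ x.1 ∧
    K x.2.1 j = K i j ∧ (ρ j i x.1 x.2.2.2 ∧ K x.2.2.1 x.1 = K x.2.2.2 x.1 ∧
      Mate sig j x.2.1 x.1 x.2.2.1))
    (fun x => dbl j i x.2.1 x.1 x.2.2.2 x.2.2.1) (prb K) (prb_nonneg K) ?_).trans ?_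
  · intro t ht
    obtain ⟨ht1, r, hr⟩ := hX t ht
    obtain ⟨k, i', q, h1, h2, h3, h4, h5, h6⟩ := prs_rep hsym ht1 hr
    exact ⟨(k, r, q, i'), mem_filter.2 ⟨mem_univ _, h1, h3, h2, h4, h5⟩, h6.symm⟩
  · rw [sum_filter, Fintype.sum_prod_type]
    refine le_trans ?_ (hb i)
    refine sum_le_sum fun k _ => ?_
    rw [Fintype.sum_prod_type]
    by_cases hjk : j ≠ k
    · have h1 : ∀ r : R, (∑ y : R × R, if j ≠ k ∧ K r j = K i j ∧
          (ρ j i k y.2 ∧ K y.1 k = K y.2 k ∧ Mate sig j r k y.1) then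
          prb K (dbl j i r k y.2 y.1) else 0) ≤
          if r ∈ kl K i j then 1 / ((kl K i j).card : ℚ) * β i k else 0 := by
        intro r
        rw [Fintype.sum_prod_type]
        by_cases hr : K r j = K i j
        · rw [if_pos (mem_kl.2 hr)]
          refine le_trans (le_of_eq ?_)
            (inner_le hinj hβ0 hβ j i r k hjk (1 / ((kl K i j).card : ℚ)) (by positivity))
          refine sum_congr rfl fun q _ => sum_congr rfl fun i' _ => ?_
          by_cases hc : ρ j i k i' ∧ K q k = K i' k ∧ Mate sig j r k q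
          · rw [if_pos ⟨hjk, hr, hc⟩, if_pos hc, prb_dbl K hjk]
          · rw [if_neg (fun h => hc h.2.2), if_neg hc]
        · rw [if_neg (fun h => hr (mem_kl.1 h))]
          refine le_of_eq (sum_eq_zero fun q _ => sum_eq_zero fun i' _ => if_neg ?_)
          exact fun h => hr h.2.1
      refine (sum_le_sum fun r _ => h1 r).trans ?_
      rw [← sum_filter, sum_const, nsmul_eq_mul]
      have h2 : (univ.filter fun r => r ∈ kl K i j) = kl K i j := by
        ext r
        simp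
      rw [h2, ← mul_assoc, mul_one_div, div_self hlam.ne', one_mul]
    · refine le_trans (le_of_eq (sum_eq_zero fun r _ => sum_eq_zero fun y _ => if_neg ?_))
        (hβ0 i k)
      exact fun h => hjk h.1

open Classical in
/-- sum through a slot -/
theorem pair_slot (hinj : ∀ j r r' p, sig j r = some p → sig j r' = some p → r = r')
    (hsym : ∀ j i k i', ρ j i k i' → ρ k i' j i)
    (hβ0 : ∀ i k, 0 ≤ β i k) (hb : ∀ i, ∑ k, β i k ≤ b)
    (hβ : ∀ j i k q, j ≠ k → ∀ Z : Finset R, (∀ i' ∈ Z, K i' k = K q k ∧ ρ j i k i') →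
      ∑ i' ∈ Z, 1 / ((kl K i' k).card : ℚ) ≤ β i k)
    (j : Fin n) (r : R) (X : Finset (Evt R n))
    (hX : ∀ t ∈ X, t ∈ prs K sig ρ ∧ ∃ i, t j = some (i, r)) :
    ∑ t ∈ X, prb K t ≤ b := by
  have hlam : (0 : ℚ) < (kl K r j).card := by exact_mod_cast kl_pos K r j
  refine (sum_le_index _ ((univ : Finset (R × Fin n × R × R)).filter fun x => j ≠ x.2.1 ∧
    K r j = K x.1 j ∧ (ρ j x.1 x.2.1 x.2.2.2 ∧ K x.2.2.1 x.2.1 = K x.2.2.2 x.2.1 ∧
      Mate sig j r x.2.1 x.2.2.1))
    (fun x => dbl j x.1 r x.2.1 x.2.2.2 x.2.2.1) (prb K) (prb_nonneg K) ?_).trans ?_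
  · intro t ht
    obtain ⟨ht1, i, hi⟩ := hX t ht
    obtain ⟨k, i', q, h1, h2, h3, h4, h5, h6⟩ := prs_rep hsym ht1 hi
    exact ⟨(i, k, q, i'), mem_filter.2 ⟨mem_univ _, h1, h3, h2, h4, h5⟩, h6.symm⟩
  · rw [sum_filter, Fintype.sum_prod_type]
    have h1 : ∀ i : R, (∑ y : Fin n × R × R, if j ≠ y.1 ∧ K r j = K i j ∧
        (ρ j i y.1 y.2.2 ∧ K y.2.1 y.1 = K y.2.2 y.1 ∧ Mate sig j r y.1 y.2.1) then
        prb K (dbl j i r y.1 y.2.2 y.2.1) else 0) ≤
        if i ∈ kl K r j then 1 / ((kl K r j).card : ℚ) * b else 0 := by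
      intro i
      rw [Fintype.sum_prod_type]
      by_cases hr : K r j = K i j
      · rw [if_pos (mem_kl.2 hr.symm)]
        refine le_trans ?_ (mul_le_mul_of_nonneg_left (hb i) (by positivity))
        rw [mul_sum]
        refine sum_le_sum fun k _ => ?_
        rw [Fintype.sum_prod_type]
        by_cases hjk : j ≠ k
        · refine le_trans (le_of_eq ?_)
            (inner_le hinj hβ0 hβ j i r k hjk (1 / ((kl K r j).card : ℚ)) (by positivity))
          refine sum_congr rfl fun q _ => sum_congr rfl fun i' _ => ?_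
          by_cases hc : ρ j i k i' ∧ K q k = K i' k ∧ Mate sig j r k q
          · rw [if_pos ⟨hjk, hr, hc⟩, if_pos hc, prb_dbl K hjk, kl_congr hr.symm]
          · rw [if_neg (fun h => hc h.2.2), if_neg hc]
        · refine le_trans (le_of_eq (sum_eq_zero fun q _ => sum_eq_zero fun i' _ => if_neg ?_))
            (mul_nonneg (by positivity) (hβ0 i k))
          exact fun h => hjk h.1
      · rw [if_neg (fun h => hr (mem_kl.1 h).symm)]
        exact le_of_eq (sum_eq_zero fun k _ => sum_eq_zero fun y _ => if_neg fun h => hr h.2.1)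
    refine (sum_le_sum fun i _ => h1 i).trans ?_
    rw [← sum_filter, sum_const, nsmul_eq_mul]
    have h2 : (univ.filter fun i => i ∈ kl K r j) = kl K r j := by
      ext i
      simp
    rw [h2, ← mul_assoc, mul_one_div, div_self hlam.ne', one_mul]

end Pairs

section Singles

variable {K : R → Fin n → Y} {τ : Fin n → R → R → Prop}

open Classical in
/-- the single events: the cell `(i, j)` in the slot `r` -/
noncomputable def sgs (K : R → Fin n → Y) (τ : Fin n → R → R → Prop) : Finset (Evt R n) :=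
  univ.filter fun t => ∃ j i r, τ j i r ∧ K r j = K i j ∧ t = sgl j i r

theorem mem_sgs {t : Evt R n} :
    t ∈ sgs K τ ↔ ∃ j i r, τ j i r ∧ K r j = K i j ∧ t = sgl j i r := by
  simp [sgs]

theorem sgs_rep {t : Evt R n} (ht : t ∈ sgs K τ) {j : Fin n} {i r : R}
    (hj : t j = some (i, r)) : τ j i r ∧ K r j = K i j ∧ t = sgl j i r := by
  obtain ⟨j', i', r', h1, h2, h3⟩ := mem_sgs.1 ht
  have hj' := hj
  rw [h3] at hj'
  unfold sgl at hj'
  by_cases e1 : j = j'
  · rw [if_pos e1] at hj'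
    obtain ⟨e3, e4⟩ := Prod.mk.inj (Option.some.inj hj')
    subst e1 e3 e4
    exact ⟨h1, h2, h3⟩
  · rw [if_neg e1] at hj'
    exact absurd hj' (by simp)

open Classical in
theorem single_cell {b : ℚ} (j : Fin n) (i : R)
    (hb : ∀ Z : Finset R, (∀ r ∈ Z, K r j = K i j ∧ τ j i r) →
      (Z.card : ℚ) ≤ b * (kl K i j).card) (X : Finset (Evt R n))
    (hX : ∀ t ∈ X, t ∈ sgs K τ ∧ ∃ r, t j = some (i, r)) :
    ∑ t ∈ X, prb K t ≤ b := by
  have hlam : (0 : ℚ) < (kl K i j).card := by exact_mod_cast kl_pos K i j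
  refine (sum_le_index _ ((kl K i j).filter fun r => τ j i r) (fun r => sgl j i r) (prb K)
    (prb_nonneg K) ?_).trans ?_
  · intro t ht
    obtain ⟨ht1, r, hr⟩ := hX t ht
    obtain ⟨h1, h2, h3⟩ := sgs_rep ht1 hr
    exact ⟨r, mem_filter.2 ⟨mem_kl.2 h2, h1⟩, h3.symm⟩
  · rw [sum_congr rfl fun r _ => prb_sgl K j i r, sum_const, nsmul_eq_mul, mul_one_div,
      div_le_iff₀ hlam]
    refine hb _ fun r hr => ?_
    rw [mem_filter, mem_kl] at hr
    exact hr

open Classical in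
theorem single_slot {b : ℚ} (j : Fin n) (r : R)
    (hb : ∀ Z : Finset R, (∀ i ∈ Z, K i j = K r j ∧ τ j i r) →
      (Z.card : ℚ) ≤ b * (kl K r j).card) (X : Finset (Evt R n))
    (hX : ∀ t ∈ X, t ∈ sgs K τ ∧ ∃ i, t j = some (i, r)) :
    ∑ t ∈ X, prb K t ≤ b := by
  have hlam : (0 : ℚ) < (kl K r j).card := by exact_mod_cast kl_pos K r j
  refine (sum_le_index _ ((kl K r j).filter fun i => τ j i r) (fun i => sgl j i r) (prb K)
    (prb_nonneg K) ?_).trans ?_
  · intro t ht
    obtain ⟨ht1, i, hi⟩ := hX t ht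
    obtain ⟨h1, h2, h3⟩ := sgs_rep ht1 hi
    exact ⟨i, mem_filter.2 ⟨mem_kl.2 h2.symm, h1⟩, h3.symm⟩
  · have h1 : ∀ i ∈ (kl K r j).filter (fun i => τ j i r),
        prb K (sgl j i r) = 1 / ((kl K r j).card : ℚ) := by
      intro i hi
      rw [prb_sgl, kl_congr (mem_kl.1 (mem_filter.1 hi).1)]
    rw [sum_congr rfl h1, sum_const, nsmul_eq_mul, mul_one_div, div_le_iff₀ hlam]
    refine hb _ fun i hi => ?_
    rw [mem_filter, mem_kl] at hi
    exact hi

end Singles

end Pool.Agent.CG61
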